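import Pool.Agent.HM94.MSC.Maps

/-!
# Layered path systems as Boolean functions of `n` bits
-/

set_option autoImplicit false

namespace Pool.Agent.HM94.MSC

open Finset

variable {T k m n : ℕ} [NeZero k]

/-- The numbering of the rules. -/
def code : Rule T k m ≃ Fin (T * (k * (m * (m * m)))) :=
  ((Equiv.refl (Fin T)).prodCongr
    (((ZMod.finEquiv k).symm.toEquiv.prodCongr
      (((Equiv.refl (Fin m)).prodCongr finProdFinEquiv).trans finProdFinEquiv)).trans
        finProdFinEquiv)).trans finProdFinEquiv

/-- The input bit of a rule. -/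
def bit (h : T * (k * (m * (m * m))) ≤ n) (e : Rule T k m) : Fin n := Fin.castLE h (code e)

theorem bit_injective (h : T * (k * (m * (m * m))) ≤ n) :
    Function.Injective (bit h : Rule T k m → Fin n) := by
  intro a b hab
  unfold bit at hab
  exact code.injective (Fin.castLE_injective h hab)

/-- The layered path system whose rules are the first bits of the input. -/
noncomputable def psFun (f g : ZMod k → ZMod k) (h : T * (k * (m * (m * m))) ≤ n)
    (x : Fin n → Bool) : Bool := PS f g fun e : Rule T k m => x (bit h e)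

/-- The bits of the rules of the layers in `L`. -/
def bitsOf (h : T * (k * (m * (m * m))) ≤ n) (L : Finset (Fin T)) : Set (Fin n) :=
  {i | ∃ e : Rule T k m, e.1 ∈ L ∧ bit h e = i}

open Classical in
/-- Reading the bits from the rules. -/
noncomputable def back (h : T * (k * (m * (m * m))) ≤ n) (i : Fin n) : Rule T k m ⊕ Bool :=
  if hi : ∃ e : Rule T k m, bit h e = i then .inl hi.choose else .inr false

theorem pull_back (h : T * (k * (m * (m * m))) ≤ n) (x : Rule T k m → Bool) (e : Rule T k m) :
    pull (back h) x (bit h e) = x e := by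
  have hi : ∃ e' : Rule T k m, bit h e' = bit h e := ⟨e, rfl⟩
  unfold pull back
  rw [dif_pos hi]
  simp only
  rw [bit_injective h hi.choose_spec]

theorem psFun_back (f g : ZMod k → ZMod k) (h : T * (k * (m * (m * m))) ≤ n)
    (x : Rule T k m → Bool) : psFun f g h (pull (back h) x) = PS f g x := by
  unfold psFun
  congr 1
  funext e
  exact pull_back h x e

theorem back_outside (h : T * (k * (m * (m * m))) ≤ n) (L : Finset (Fin T))
    {x x' : Rule T k m → Bool} (hx : ∀ e, e ∉ {e : Rule T k m | e.1 ∈ L} → x e = x' e)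
    (i : Fin n) (hi : i ∉ bitsOf h L) : pull (back h) x i = pull (back h) x' i := by
  by_cases hex : ∃ e : Rule T k m, bit h e = i
  · obtain ⟨e, rfl⟩ := hex
    rw [pull_back, pull_back]
    refine hx e fun he => hi ⟨e, he, rfl⟩
  · unfold pull back
    rw [dif_neg hex]

theorem neg_back {s : ℕ} (h : T * (k * (m * (m * m))) ≤ n) (L : Finset (Fin T))
    {C : Circ (Fin n) s} (hC : C.NegOutside (bitsOf h L)) :
    (C.map (back h)).NegOutside {e : Rule T k m | e.1 ∈ L} := by
  intro j a hg x x' hx
  rw [Circ.map_val, Circ.map_val]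
  exact hC j a (Circ.map_neg hg) _ _ fun i hi => back_outside h L hx i hi

theorem mono_neg {s : ℕ} {ι : Type} {C : Circ ι s} (hC : C.Mono) (H : Set ι) : C.NegOutside H :=
  fun j a hg => absurd hg (hC j a)

theorem map_mono {ι ι' : Type} {s : ℕ} {C : Circ ι s} (hC : C.Mono) (φ : ι → ι' ⊕ Bool) :
    (C.map φ).Mono := fun j a hg => hC j a (Circ.map_neg hg)

theorem monoProg_map {ι ι' R R' : Type} {P : List (Instr ι R)} (hP : MonoProg P)
    (φ : ι → ι' ⊕ Bool) (ψ : R → R') : MonoProg (P.map (Instr.map φ ψ)) := by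
  intro q a hmem
  rw [List.mem_map] at hmem
  obtain ⟨I, hI, h⟩ := hmem
  rcases I with ⟨q', i⟩ | ⟨q', b⟩ | ⟨q', a'⟩ | ⟨q', a', b⟩ | ⟨q', a', b⟩
  · unfold Instr.map at h
    rcases hφ : φ i with i' | b
    · simp [hφ] at h
    · simp [hφ] at h
  · simp [Instr.map] at h
  · exact hP _ _ hI
  · simp [Instr.map] at h
  · simp [Instr.map] at h

theorem monoProg_neg {ι R : Type} [DecidableEq R] {P : List (Instr ι R)} (hP : MonoProg P)
    (H : Set ι) : NegOutside P H := by
  intro P₁ P₂ q a h
  exfalso
  apply hP q a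
  rw [h]
  simp

end Pool.Agent.HM94.MSC
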