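import Pool.Agent.HM94.MSC.Maps

/-!
# A monotone circuit of linear size and small depth
-/

set_option autoImplicit false

namespace Pool.Agent.HM94.MSC

open Finset

/-- Boolean functions. -/
abbrev Fn (ι : Type) : Type := (ι → Bool) → Bool

/-- Some monotone circuit with `s` gates computes all functions of `A` within the given depths. -/
def Ok {ι : Type} (s : ℕ) (A : Set (Fn ι × ℕ)) : Prop :=
  ∃ C : Circ ι s, C.Mono ∧ ∀ a ∈ A, ∃ j, (∀ x, C.val x j = a.1 x) ∧ C.depth j ≤ a.2

section ok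

variable {ι : Type} {s : ℕ} {A B : Set (Fn ι × ℕ)}

theorem ok_zero : Ok (ι := ι) 0 ∅ :=
  ⟨⟨fun j => j.elim0⟩, fun j => j.elim0, fun a ha => absurd ha (Set.notMem_empty a)⟩

theorem ok_imp (h : ∀ b ∈ B, ∃ a ∈ A, (∀ x, a.1 x = b.1 x) ∧ a.2 ≤ b.2) (hA : Ok s A) : Ok s B := by
  obtain ⟨C, hC, h1⟩ := hA
  refine ⟨C, hC, fun b hb => ?_⟩
  obtain ⟨a, ha, h2, h3⟩ := h b hb
  obtain ⟨j, h4, h5⟩ := h1 a ha
  exact ⟨j, fun x => (h4 x).trans (h2 x), h5.trans h3⟩

theorem ok_sub (h : B ⊆ A) (hA : Ok s A) : Ok s B :=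
  ok_imp (fun b hb => ⟨b, h hb, fun _ => rfl, le_rfl⟩) hA

theorem ok_snoc {C : Circ ι s} (hC : C.Mono) (g : Gate ι s) (hg : ∀ a, g ≠ .neg a)
    (h1 : ∀ a ∈ A, ∃ j, (∀ x, C.val x j = a.1 x) ∧ C.depth j ≤ a.2) (F : Fn ι) (d : ℕ)
    (hF : ∀ x, (C.snoc g).val x (Fin.last s) = F x) (hd : (C.snoc g).depth (Fin.last s) ≤ d) :
    Ok (s + 1) (insert (F, d) A) := by
  refine ⟨C.snoc g, ?_, ?_⟩
  · intro j a ha
    rcases Fin.eq_castSucc_or_eq_last j with ⟨i, hi⟩ | hi
    · subst hi
      rw [Circ.snoc_gate_old] at ha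
      exact hC i a ha
    · subst hi
      rw [Circ.snoc_gate_new] at ha
      exact hg a ha
  · intro a ha
    rcases Set.mem_insert_iff.1 ha with h | h
    · subst h
      exact ⟨Fin.last s, hF, hd⟩
    · obtain ⟨j, h2, h3⟩ := h1 a h
      refine ⟨j.castSucc, fun x => ?_, ?_⟩
      · rw [Circ.snoc_val_old]; exact h2 x
      · rw [Circ.snoc_depth_old]; exact h3

theorem ok_inp (i : ι) (hA : Ok s A) : Ok (s + 1) (insert ((fun x => x i : Fn ι), 0) A) := by
  obtain ⟨C, hC, h1⟩ := hA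
  refine ok_snoc hC (.inp i) (fun a => by simp) h1 _ _ (fun x => ?_) ?_
  · rw [Circ.snoc_val_new]
  · rw [Circ.snoc_depth_new]

theorem ok_cst (b : Bool) (hA : Ok s A) : Ok (s + 1) (insert ((fun _ => b : Fn ι), 0) A) := by
  obtain ⟨C, hC, h1⟩ := hA
  refine ok_snoc hC (.cst b) (fun a => by simp) h1 _ _ (fun x => ?_) ?_
  · rw [Circ.snoc_val_new]
  · rw [Circ.snoc_depth_new]

theorem ok_and {F G : Fn ι} {d e : ℕ} (hF : (F, d) ∈ A) (hG : (G, e) ∈ A) (hA : Ok s A) :
    Ok (s + 1) (insert ((fun x => F x && G x : Fn ι), max d e + 1) A) := by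
  obtain ⟨C, hC, h1⟩ := hA
  obtain ⟨j, h2, h3⟩ := h1 _ hF
  obtain ⟨j', h2', h3'⟩ := h1 _ hG
  refine ok_snoc hC (.and j j') (fun a => by simp) h1 _ _ (fun x => ?_) ?_
  · rw [Circ.snoc_val_new]
    simp only
    rw [h2, h2']
  · rw [Circ.snoc_depth_new]
    simp only at h3 h3' ⊢
    omega

theorem ok_or {F G : Fn ι} {d e : ℕ} (hF : (F, d) ∈ A) (hG : (G, e) ∈ A) (hA : Ok s A) :
    Ok (s + 1) (insert ((fun x => F x || G x : Fn ι), max d e + 1) A) := by
  obtain ⟨C, hC, h1⟩ := hA
  obtain ⟨j, h2, h3⟩ := h1 _ hF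
  obtain ⟨j', h2', h3'⟩ := h1 _ hG
  refine ok_snoc hC (.or j j') (fun a => by simp) h1 _ _ (fun x => ?_) ?_
  · rw [Circ.snoc_val_new]
    simp only
    rw [h2, h2']
  · rw [Circ.snoc_depth_new]
    simp only at h3 h3' ⊢
    omega

/-- A balanced tree of OR gates. -/
theorem ok_tree (D : ℕ) : ∀ (j : ℕ) {s : ℕ} {A : Set (Fn ι × ℕ)} (l : List (Fn ι)), l ≠ [] →
    l.length ≤ 2 ^ j → (∀ F ∈ l, (F, D) ∈ A) → Ok s A →
    Ok (s + (l.length - 1)) (insert ((fun x => l.any fun F => F x : Fn ι), D + j) A) := by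
  intro j
  induction j with
  | zero =>
    intro s A l hl hlen hA hok
    rw [pow_zero] at hlen
    rcases l with _ | ⟨F, _ | ⟨G, l⟩⟩
    · exact absurd rfl hl
    · have h1 : ([F] : List (Fn ι)).length - 1 = 0 := rfl
      rw [h1, add_zero]
      refine ok_imp (fun b hb => ?_) hok
      rcases Set.mem_insert_iff.1 hb with h | h
      · subst h
        exact ⟨(F, D), hA F (by simp), fun x => by simp, by simp⟩
      · exact ⟨b, h, fun _ => rfl, le_rfl⟩
    · simp at hlen
  | succ j ih =>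
    intro s A l hl hlen hA hok
    by_cases hsm : l.length ≤ 2 ^ j
    · refine ok_imp (fun b hb => ?_) (ih l hl hsm hA hok)
      rcases Set.mem_insert_iff.1 hb with h | h
      · subst h
        exact ⟨_, Set.mem_insert _ _, fun _ => rfl, by simp⟩
      · exact ⟨b, Set.mem_insert_of_mem _ h, fun _ => rfl, le_rfl⟩
    · rw [not_le] at hsm
      have hpos : 0 < 2 ^ j := by positivity
      have hl1 : (l.take (2 ^ j)).length = 2 ^ j := by
        rw [List.length_take]; omega
      have hl2 : (l.drop (2 ^ j)).length = l.length - 2 ^ j := List.length_drop ..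
      have hn1 : l.take (2 ^ j) ≠ [] := by
        intro h
        rw [h] at hl1
        simp at hl1
        omega
      have hn2 : l.drop (2 ^ j) ≠ [] := by
        intro h
        rw [h] at hl2
        simp at hl2
        omega
      have hs1 := ih (l.take (2 ^ j)) hn1 hl1.le
        (fun F hF => hA F (List.mem_of_mem_take hF)) hok
      have hs2 := ih (l.drop (2 ^ j)) hn2 (by rw [hl2]; rw [pow_succ] at hlen; omega)
        (fun F hF => Set.mem_insert_of_mem _ (hA F (List.mem_of_mem_drop hF))) hs1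
      have hs3 := ok_or (Set.mem_insert_of_mem _ (Set.mem_insert _ _)) (Set.mem_insert _ _) hs2
      have hsz : s + ((l.take (2 ^ j)).length - 1) + ((l.drop (2 ^ j)).length - 1) + 1
          = s + (l.length - 1) := by
        rw [hl1, hl2]; omega
      rw [hsz] at hs3
      refine ok_imp (fun b hb => ?_) hs3
      rcases Set.mem_insert_iff.1 hb with h | h
      · subst h
        refine ⟨_, Set.mem_insert _ _, fun x => ?_, ?_⟩
        · simp only
          conv_rhs => rw [← List.take_append_drop (2 ^ j) l, List.any_append]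
        · simp only
          omega
      · exact ⟨b, Set.mem_insert_of_mem _ (Set.mem_insert_of_mem _ (Set.mem_insert_of_mem _ h)),
          fun _ => rfl, le_rfl⟩

/-- Computing a list of functions one after the other. -/
theorem ok_list (c D : ℕ) : ∀ (l : List (Fn ι)) {s : ℕ} {A : Set (Fn ι × ℕ)},
    (∀ F ∈ l, ∀ (s' : ℕ) (A' : Set (Fn ι × ℕ)), A ⊆ A' → Ok s' A' →
      Ok (s' + c) (insert (F, D) A')) → Ok s A →
    Ok (s + c * l.length) (A ∪ {a | a.1 ∈ l ∧ a.2 = D}) := by
  intro l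
  induction l with
  | nil =>
    intro s A _ hok
    refine ok_sub ?_ (show Ok (s + c * 0) A from by simpa using hok)
    rintro a (ha | ha)
    · exact ha
    · simp at ha
  | cons F l ih =>
    intro s A hstep hok
    have h1 := hstep F (by simp) s A (Set.Subset.refl _) hok
    have h2 := ih (s := s + c) (A := insert (F, D) A) (fun G hG s' A' hA' =>
      hstep G (List.mem_cons_of_mem _ hG) s' A' ((Set.subset_insert _ _).trans hA')) h1
    have h3 : s + c + c * l.length = s + c * (F :: l).length := by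
      rw [List.length_cons]; ring
    rw [h3] at h2
    refine ok_sub ?_ h2
    rintro a (ha | ha)
    · exact Or.inl (Set.mem_insert_of_mem _ ha)
    · rcases List.mem_cons.1 ha.1 with h | h
      · left
        rw [Set.mem_insert_iff]
        left
        exact Prod.ext h ha.2
      · exact Or.inr ⟨h, ha.2⟩

end ok

variable {T k m : ℕ} [NeZero k] (f g : ZMod k → ZMod k)

open Classical in
/-- The reached elements as functions. -/
noncomputable def RF (t : ℕ) (i : ZMod k) (c : Fin m) : Fn (Rule T k m) :=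
  fun x => decide (Reach f g x t i c)

open Classical in
theorem RF_succ (t : ℕ) (ht : t < T) (i : ZMod k) (c : Fin m) (x : Rule T k m → Bool) :
    RF f g (t + 1) i c x = ((univ : Finset (Fin m × Fin m)).toList.map fun ab : Fin m × Fin m =>
      (fun x => (x (⟨t, ht⟩, i, ab.1, ab.2, c) && RF f g t (f i) ab.1 x) && RF f g t (g i) ab.2 x :
        Fn (Rule T k m))).any fun F => F x := by
  rw [List.any_map, Bool.eq_iff_iff, List.any_eq_true]
  unfold RF
  rw [decide_eq_true_eq]
  constructor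
  · rintro ⟨_, a, b, h1, h2, h3⟩
    refine ⟨(a, b), by simp, ?_⟩
    simp [h1, h2, h3]
  · rintro ⟨ab, _, h⟩
    simp only [Function.comp_apply, Bool.and_eq_true, decide_eq_true_eq] at h
    exact ⟨ht, ab.1, ab.2, h.1.1, h.1.2, h.2⟩

theorem ok_elt {j D : ℕ} (hj : m * m ≤ 2 ^ j) (hm : 0 < m) (t : ℕ) (ht : t < T) (i : ZMod k)
    (c : Fin m) {s : ℕ} {A : Set (Fn (Rule T k m) × ℕ)}
    (hA : ∀ i c, ((RF f g t i c : Fn (Rule T k m)), D) ∈ A) (hok : Ok s A) :
    Ok (s + (3 * (m * m) + (m * m - 1))) (insert (RF f g (t + 1) i c, D + 2 + j) A) := by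
  set l : List (Fn (Rule T k m)) := (univ : Finset (Fin m × Fin m)).toList.map
    fun ab : Fin m × Fin m =>
      (fun x => (x (⟨t, ht⟩, i, ab.1, ab.2, c) && RF f g t (f i) ab.1 x) && RF f g t (g i) ab.2 x :
        Fn (Rule T k m)) with hl
  have hlen : l.length = m * m := by
    rw [hl, List.length_map]; simp
  have h1 := ok_list 3 (D + 2) l (s := s) (A := A) (by
    intro F hF s' A' hAA' hok'
    rw [hl, List.mem_map] at hF
    obtain ⟨ab, _, rfl⟩ := hF
    have g1 := ok_inp ((⟨t, ht⟩, i, ab.1, ab.2, c) : Rule T k m) hok'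
    have g2 := ok_and (Set.mem_insert _ _)
      (Set.mem_insert_of_mem _ (hAA' (hA (f i) ab.1))) g1
    have g3 := ok_and (Set.mem_insert _ _)
      (Set.mem_insert_of_mem _ (Set.mem_insert_of_mem _ (hAA' (hA (g i) ab.2)))) g2
    refine ok_imp (fun b hb => ?_) g3
    rcases Set.mem_insert_iff.1 hb with h | h
    · subst h
      refine ⟨_, Set.mem_insert _ _, fun x => rfl, ?_⟩
      simp only
      omega
    · exact ⟨b, Set.mem_insert_of_mem _ (Set.mem_insert_of_mem _ (Set.mem_insert_of_mem _ h)),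
        fun _ => rfl, le_rfl⟩) hok
  have hl0 : l ≠ [] := by
    intro h
    rw [h] at hlen
    simp at hlen
    omega
  have h2 := ok_tree (D + 2) j l hl0 (by rw [hlen]; exact hj)
    (fun F hF => Or.inr ⟨hF, rfl⟩) h1
  rw [hlen] at h2
  rw [← add_assoc]
  refine ok_imp (fun b hb => ?_) h2
  rcases Set.mem_insert_iff.1 hb with h | h
  · subst h
    refine ⟨_, Set.mem_insert _ _, fun x => ?_, le_rfl⟩
    simp only
    rw [RF_succ f g t ht i c x]
  · exact ⟨b, Set.mem_insert_of_mem _ (Or.inl h), fun _ => rfl, le_rfl⟩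

theorem ok_layers {j : ℕ} (hj : m * m ≤ 2 ^ j) (hm : 0 < m) : ∀ t : ℕ, t ≤ T →
    Ok (1 + t * ((3 * (m * m) + (m * m - 1)) * (k * m)))
      {a | ∃ i c, a = ((RF f g t i c : Fn (Rule T k m)), t * (2 + j))} := by
  intro t
  induction t with
  | zero =>
    intro _
    have h1 := ok_cst (ι := Rule T k m) true ok_zero
    rw [zero_mul, add_zero, ← zero_add 1]
    refine ok_imp (fun b hb => ?_) h1
    obtain ⟨i, c, rfl⟩ := hb
    refine ⟨_, Set.mem_insert _ _, fun x => ?_, by simp⟩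
    symm
    simp only [RF, decide_eq_true_eq]
    trivial
  | succ t ih =>
    intro ht
    have h1 := ih (by omega)
    set l : List (Fn (Rule T k m)) := (univ : Finset (ZMod k × Fin m)).toList.map
      fun ic : ZMod k × Fin m => RF f g (t + 1) ic.1 ic.2 with hl
    have hlen : l.length = k * m := by
      rw [hl, List.length_map]; simp
    have h2 := ok_list (3 * (m * m) + (m * m - 1)) (t * (2 + j) + 2 + j) l (by
      intro F hF s' A' hAA' hok'
      rw [hl, List.mem_map] at hF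
      obtain ⟨ic, _, rfl⟩ := hF
      exact ok_elt f g hj hm t ht ic.1 ic.2 (fun i c => hAA' ⟨i, c, rfl⟩) hok') h1
    rw [hlen] at h2
    have h3 : 1 + t * ((3 * (m * m) + (m * m - 1)) * (k * m)) +
        (3 * (m * m) + (m * m - 1)) * (k * m) =
        1 + (t + 1) * ((3 * (m * m) + (m * m - 1)) * (k * m)) := by ring
    rw [h3] at h2
    refine ok_imp (fun b hb => ?_) h2
    obtain ⟨i, c, rfl⟩ := hb
    refine ⟨(RF f g (t + 1) i c, t * (2 + j) + 2 + j), Or.inr ⟨?_, rfl⟩, fun _ => rfl, ?_⟩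
    · rw [hl, List.mem_map]
      exact ⟨(i, c), by simp, rfl⟩
    · simp only
      rw [add_mul, one_mul]
      omega

/-- The circuit. -/
theorem circ_up {j : ℕ} (hj : m * m ≤ 2 ^ j) (hm : 0 < m) :
    ∃ C : Circ (Rule T k m) (1 + T * ((3 * (m * m) + (m * m - 1)) * (k * m)) + (m - 1)), C.Mono ∧
      ∃ o, (∀ x, C.val x o = PS f g x) ∧ C.depth o ≤ T * (2 + j) + j := by
  have h1 := ok_layers (T := T) (k := k) f g hj hm T le_rfl
  set l : List (Fn (Rule T k m)) := (univ : Finset (Fin m)).toList.map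
      fun c : Fin m => RF f g T 0 c with hl
  have hlen : l.length = m := by
    rw [hl, List.length_map]; simp
  have hl0 : l ≠ [] := by
    intro h
    rw [h] at hlen
    simp at hlen
    omega
  have hmj : m ≤ 2 ^ j := (Nat.le_mul_of_pos_left m hm).trans hj
  have h2 := ok_tree (T * (2 + j)) j l hl0 (by rw [hlen]; exact hmj) (by
    intro F hF
    rw [hl, List.mem_map] at hF
    obtain ⟨c, _, rfl⟩ := hF
    exact ⟨0, c, rfl⟩) h1
  rw [hlen] at h2
  obtain ⟨C, hC, h3⟩ := h2
  obtain ⟨o, h4, h5⟩ := h3 _ (Set.mem_insert _ _)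
  refine ⟨C, hC, o, fun x => ?_, h5⟩
  rw [h4]
  simp only
  rw [Bool.eq_iff_iff, List.any_eq_true, hl]
  simp only [PS, decide_eq_true_eq, List.mem_map]
  constructor
  · rintro ⟨F, ⟨c, _, rfl⟩, h6⟩
    refine ⟨c, ?_⟩
    simpa [RF] using h6
  · rintro ⟨c, hc⟩
    exact ⟨_, ⟨c, by simp, rfl⟩, by simpa [RF] using hc⟩

end Pool.Agent.HM94.MSC
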