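import Pool.Agent.HM94.MSC.Defs

/-!
# Renaming inputs and registers, adding a gate
-/

set_option autoImplicit false

namespace Pool.Agent.HM94.MSC

/-- The renamed input: an input or a constant. -/
def pull {ι ι' : Type} (φ : ι → ι' ⊕ Bool) (x : ι' → Bool) (i : ι) : Bool :=
  match φ i with
  | .inl i' => x i'
  | .inr b => b

namespace Circ

variable {ι ι' : Type} {s : ℕ}

theorem val_eq (C : Circ ι s) (x : ι → Bool) (j : Fin s) : C.val x j =
    match C.gate j with
    | .inp i => x i
    | .cst b => b
    | .neg a => !(C.val x (up j a))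
    | .and a b => C.val x (up j a) && C.val x (up j b)
    | .or a b => C.val x (up j a) || C.val x (up j b) := by
  rw [Circ.val]
  cases C.gate j <;> rfl

theorem depth_eq (C : Circ ι s) (j : Fin s) : C.depth j =
    match C.gate j with
    | .inp _ => 0
    | .cst _ => 0
    | .neg a => C.depth (up j a) + 1
    | .and a b => max (C.depth (up j a)) (C.depth (up j b)) + 1
    | .or a b => max (C.depth (up j a)) (C.depth (up j b)) + 1 := by
  rw [Circ.depth]
  cases C.gate j <;> rfl

/-- The circuit with renamed inputs. -/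
def map (φ : ι → ι' ⊕ Bool) (C : Circ ι s) : Circ ι' s where
  gate j := match C.gate j with
    | .inp i => match φ i with
      | .inl i' => .inp i'
      | .inr b => .cst b
    | .cst b => .cst b
    | .neg a => .neg a
    | .and a b => .and a b
    | .or a b => .or a b

theorem map_val (φ : ι → ι' ⊕ Bool) (C : Circ ι s) (x : ι' → Bool) (j : Fin s) :
    (C.map φ).val x j = C.val (pull φ x) j := by
  induction' hj : (j : ℕ) using Nat.strong_induction_on with n ih generalizing j
  have hup : ∀ a : Fin (j : ℕ), (C.map φ).val x (up j a) = C.val (pull φ x) (up j a) := by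
    intro a
    exact ih (up j a : ℕ) (by rw [← hj]; exact a.2) (up j a) rfl
  rw [val_eq, val_eq]
  rcases hg : C.gate j with i | b | a | ⟨a, b⟩ | ⟨a, b⟩
  · have h1 : (C.map φ).gate j = match φ i with
      | .inl i' => .inp i'
      | .inr b => .cst b := by simp only [map, hg]
    rw [h1]
    unfold pull
    rcases hφ : φ i with i' | b
    · simp [hφ]
    · simp [hφ]
  · have h1 : (C.map φ).gate j = .cst b := by simp only [map, hg]
    rw [h1]
  · have h1 : (C.map φ).gate j = .neg a := by simp only [map, hg]
    rw [h1]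
    simp only
    rw [hup]
  · have h1 : (C.map φ).gate j = .and a b := by simp only [map, hg]
    rw [h1]
    simp only
    rw [hup, hup]
  · have h1 : (C.map φ).gate j = .or a b := by simp only [map, hg]
    rw [h1]
    simp only
    rw [hup, hup]

theorem map_depth (φ : ι → ι' ⊕ Bool) (C : Circ ι s) (j : Fin s) :
    (C.map φ).depth j = C.depth j := by
  induction' hj : (j : ℕ) using Nat.strong_induction_on with n ih generalizing j
  have hup : ∀ a : Fin (j : ℕ), (C.map φ).depth (up j a) = C.depth (up j a) := by
    intro a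
    exact ih (up j a : ℕ) (by rw [← hj]; exact a.2) (up j a) rfl
  rw [depth_eq, depth_eq]
  rcases hg : C.gate j with i | b | a | ⟨a, b⟩ | ⟨a, b⟩
  · have h1 : (C.map φ).gate j = match φ i with
      | .inl i' => .inp i'
      | .inr b => .cst b := by simp only [map, hg]
    rw [h1]
    rcases hφ : φ i with i' | b
    · simp
    · simp
  · have h1 : (C.map φ).gate j = .cst b := by simp only [map, hg]
    rw [h1]
  · have h1 : (C.map φ).gate j = .neg a := by simp only [map, hg]
    rw [h1]
    simp only
    rw [hup]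
  · have h1 : (C.map φ).gate j = .and a b := by simp only [map, hg]
    rw [h1]
    simp only
    rw [hup, hup]
  · have h1 : (C.map φ).gate j = .or a b := by simp only [map, hg]
    rw [h1]
    simp only
    rw [hup, hup]

theorem map_neg {φ : ι → ι' ⊕ Bool} {C : Circ ι s} {j : Fin s} {a : Fin (j : ℕ)}
    (h : (C.map φ).gate j = .neg a) : C.gate j = .neg a := by
  rcases hg : C.gate j with i | b | a' | ⟨a', b⟩ | ⟨a', b⟩
  · rcases hφ : φ i with i' | b
    · simp [map, hg, hφ] at h
    · simp [map, hg, hφ] at h
  · simp [map, hg] at h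
  · simp only [map, hg] at h
    injection h with h
    rw [h]
  · simp [map, hg] at h
  · simp [map, hg] at h

/-- Adding a gate. -/
def snoc (C : Circ ι s) (g : Gate ι s) : Circ ι (s + 1) where
  gate j := if h : (j : ℕ) < s then C.gate ⟨j, h⟩ else
    (show s = (j : ℕ) by have := j.2; omega) ▸ g

theorem snoc_gate_old (C : Circ ι s) (g : Gate ι s) (j : Fin s) :
    (C.snoc g).gate j.castSucc = C.gate j := by
  have h : (j.castSucc : ℕ) < s := j.2
  simp only [snoc]
  rw [dif_pos h]
  rfl

theorem snoc_gate_new (C : Circ ι s) (g : Gate ι s) : (C.snoc g).gate (Fin.last s) = g := by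
  have h : ¬ ((Fin.last s : Fin (s + 1)) : ℕ) < s := by simp
  simp only [snoc]
  rw [dif_neg h]

theorem snoc_val_old (C : Circ ι s) (g : Gate ι s) (x : ι → Bool) (j : Fin s) :
    (C.snoc g).val x j.castSucc = C.val x j := by
  induction' hj : (j : ℕ) using Nat.strong_induction_on with n ih generalizing j
  have hup : ∀ a : Fin (j : ℕ), (C.snoc g).val x (up j.castSucc a) = C.val x (up j a) := by
    intro a
    exact ih (up j a : ℕ) (by rw [← hj]; exact a.2) (up j a) rfl
  rw [val_eq, val_eq, snoc_gate_old]
  rcases hg : C.gate j with i | b | a | ⟨a, b⟩ | ⟨a, b⟩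
  · rfl
  · rfl
  · simp only
    rw [← hup]
  · simp only
    rw [← hup, ← hup]
  · simp only
    rw [← hup, ← hup]

theorem snoc_depth_old (C : Circ ι s) (g : Gate ι s) (j : Fin s) :
    (C.snoc g).depth j.castSucc = C.depth j := by
  induction' hj : (j : ℕ) using Nat.strong_induction_on with n ih generalizing j
  have hup : ∀ a : Fin (j : ℕ), (C.snoc g).depth (up j.castSucc a) = C.depth (up j a) := by
    intro a
    exact ih (up j a : ℕ) (by rw [← hj]; exact a.2) (up j a) rfl
  rw [depth_eq, depth_eq, snoc_gate_old]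
  rcases hg : C.gate j with i | b | a | ⟨a, b⟩ | ⟨a, b⟩
  · rfl
  · rfl
  · simp only
    rw [← hup]
  · simp only
    rw [← hup, ← hup]
  · simp only
    rw [← hup, ← hup]

theorem snoc_val_new (C : Circ ι s) (g : Gate ι s) (x : ι → Bool) :
    (C.snoc g).val x (Fin.last s) =
    match g with
    | .inp i => x i
    | .cst b => b
    | .neg a => !(C.val x a)
    | .and a b => C.val x a && C.val x b
    | .or a b => C.val x a || C.val x b := by
  rw [val_eq, snoc_gate_new]
  have hup : ∀ a : Fin s, (C.snoc g).val x (up (Fin.last s) a) = C.val x a := fun a =>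
    snoc_val_old C g x a
  rcases g with i | b | a | ⟨a, b⟩ | ⟨a, b⟩
  · rfl
  · rfl
  · simp only
    rw [← hup]
  · simp only
    rw [← hup, ← hup]
  · simp only
    rw [← hup, ← hup]

theorem snoc_depth_new (C : Circ ι s) (g : Gate ι s) :
    (C.snoc g).depth (Fin.last s) =
    match g with
    | .inp _ => 0
    | .cst _ => 0
    | .neg a => C.depth a + 1
    | .and a b => max (C.depth a) (C.depth b) + 1
    | .or a b => max (C.depth a) (C.depth b) + 1 := by
  rw [depth_eq, snoc_gate_new]
  have hup : ∀ a : Fin s, (C.snoc g).depth (up (Fin.last s) a) = C.depth a := fun a =>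
    snoc_depth_old C g a
  rcases g with i | b | a | ⟨a, b⟩ | ⟨a, b⟩
  · rfl
  · rfl
  · simp only
    rw [← hup]
  · simp only
    rw [← hup, ← hup]
  · simp only
    rw [← hup, ← hup]

end Circ

/-- An instruction with renamed inputs and registers. -/
def Instr.map {ι ι' R R' : Type} (φ : ι → ι' ⊕ Bool) (ψ : R → R') : Instr ι R → Instr ι' R'
  | .inp q i => match φ i with
    | .inl i' => .inp (ψ q) i'
    | .inr b => .cst (ψ q) b
  | .cst q b => .cst (ψ q) b
  | .neg q a => .neg (ψ q) (ψ a)
  | .and q a b => .and (ψ q) (ψ a) (ψ b)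
  | .or q a b => .or (ψ q) (ψ a) (ψ b)

theorem step_map {ι ι' R R' : Type} [DecidableEq R] [DecidableEq R'] (φ : ι → ι' ⊕ Bool)
    {ψ : R → R'} (hψ : Function.Injective ψ) (x : ι' → Bool) (I : Instr ι R) {σ : R → Bool}
    {σ' : R' → Bool} (h : ∀ r, σ' (ψ r) = σ r) (r : R) :
    Instr.step x σ' (I.map φ ψ) (ψ r) = Instr.step (pull φ x) σ I r := by
  have key : ∀ (q : R) (b : Bool), Function.update σ' (ψ q) b (ψ r) = Function.update σ q b r := by
    intro q b
    by_cases hq : r = q
    · subst hq
      rw [Function.update_self, Function.update_self]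
    · rw [Function.update_of_ne hq, Function.update_of_ne (fun h => hq (hψ h)), h]
  rcases I with ⟨q, i⟩ | ⟨q, b⟩ | ⟨q, a⟩ | ⟨q, a, b⟩ | ⟨q, a, b⟩
  · unfold pull Instr.map
    rcases hφ : φ i with i' | b
    · simp only [Instr.step, hφ]
      exact key _ _
    · simp only [Instr.step, hφ]
      exact key _ _
  · exact key _ _
  · simp only [Instr.map, Instr.step, h]
    exact key _ _
  · simp only [Instr.map, Instr.step, h]
    exact key _ _
  · simp only [Instr.map, Instr.step, h]
    exact key _ _

theorem run_map {ι ι' R R' : Type} [DecidableEq R] [DecidableEq R'] (φ : ι → ι' ⊕ Bool)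
    {ψ : R → R'} (hψ : Function.Injective ψ) (x : ι' → Bool) (P : List (Instr ι R)) {σ : R → Bool}
    {σ' : R' → Bool} (h : ∀ r, σ' (ψ r) = σ r) (r : R) :
    run x (P.map (Instr.map φ ψ)) σ' (ψ r) = run (pull φ x) P σ r := by
  unfold run
  induction P generalizing σ σ' with
  | nil => exact h r
  | cons I P ih =>
    rw [List.map_cons, List.foldl_cons, List.foldl_cons]
    exact ih fun r => step_map φ hψ x I h r

theorem exec_map {ι ι' R R' : Type} [DecidableEq R] [DecidableEq R'] (φ : ι → ι' ⊕ Bool)
    {ψ : R → R'} (hψ : Function.Injective ψ) (x : ι' → Bool) (P : List (Instr ι R)) (r : R) :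
    exec x (P.map (Instr.map φ ψ)) (ψ r) = exec (pull φ x) P r :=
  run_map φ hψ x P (fun _ => rfl) r

/-- No NOT gates. -/
def Circ.Mono {ι : Type} {s : ℕ} (C : Circ ι s) : Prop := ∀ (j : Fin s) (a : Fin (j : ℕ)),
  C.gate j ≠ .neg a

/-- No NOT instructions. -/
def MonoProg {ι R : Type} (P : List (Instr ι R)) : Prop := ∀ q a : R, Instr.neg q a ∉ P

end Pool.Agent.HM94.MSC
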