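import Pool.Agent.HM94.MSC.Clean

/-!
# Dense pieces of the classes of a partition
-/

set_option autoImplicit false
set_option linter.unusedSectionVars false

namespace Pool.Agent.HM94.MSC

open Finset

variable {V : Type*} [Fintype V] [DecidableEq V] {m : ℕ}

/-- A set is, up to `η` rows, a union of dense pieces which are not too small. -/
theorem clean_rows2 {r : ℕ} (hr : 0 < r) (I : Finset V) (η : ℕ) (X : Finset (V → Fin m)) :
    ∃ X' ⊆ X, (X \ X').card ≤ η ∧ ∀ x ∈ X', ∃ (J : Finset V) (P : Finset (V → Fin m)),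
      Disjoint J I ∧ P ⊆ X' ∧ x ∈ P ∧ (∀ x' ∈ P, ∀ v ∈ J, x' v = x v) ∧ Dense r (I ∪ J) P ∧
      η < P.card * r ^ J.card := by
  classical
  induction' hn : X.card using Nat.strong_induction_on with n ih generalizing X
  by_cases hsmall : X.card ≤ η
  · exact ⟨∅, empty_subset _, by rw [sdiff_empty]; exact hsmall, fun x hx => absurd hx (notMem_empty x)⟩
  have hXpos : 0 < X.card := by omega
  obtain ⟨x0, hx0⟩ := card_pos.1 hXpos
  set Cd : Finset (Finset V × (V → Fin m)) := univ.filter (fun q => Disjoint q.1 I ∧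
    X.card ≤ (X.filter (fun x => ∀ v ∈ q.1, x v = q.2 v)).card * r ^ q.1.card) with hCd
  have hCn : Cd.Nonempty := by
    refine ⟨(∅, x0), ?_⟩
    rw [hCd, mem_filter]
    refine ⟨mem_univ _, disjoint_empty_left _, ?_⟩
    simp
  obtain ⟨⟨J, a⟩, hJa, hmax⟩ := exists_max_image Cd (fun q => q.1.card) hCn
  rw [hCd, mem_filter] at hJa
  have hJI : Disjoint J I := hJa.2.1
  have hJa1 : X.card ≤ (X.filter (fun x => ∀ v ∈ J, x v = a v)).card * r ^ J.card := hJa.2.2
  set P := X.filter (fun x => ∀ v ∈ J, x v = a v) with hP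
  have hPpos : 0 < P.card := by
    by_contra h
    have : P.card = 0 := by omega
    rw [this, zero_mul] at hJa1
    omega
  have hdense : Dense r (I ∪ J) P := by
    intro S hS b
    by_cases hSe : S = ∅
    · subst hSe
      simp
    have hSI : Disjoint S I := disjoint_of_subset_right subset_union_left hS
    have hSJ : Disjoint S J := disjoint_of_subset_right subset_union_right hS
    have hSpos : 0 < S.card := card_pos.2 (nonempty_iff_ne_empty.2 hSe)
    set ab : V → Fin m := fun v => if v ∈ S then b v else a v with hab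
    have hfe : P.filter (fun x => ∀ v ∈ S, x v = b v)
        = X.filter (fun x => ∀ v ∈ J ∪ S, x v = ab v) := by
      ext x
      rw [hP, mem_filter, mem_filter, mem_filter]
      constructor
      · rintro ⟨⟨h1, h2⟩, h3⟩
        refine ⟨h1, fun v hv => ?_⟩
        rw [hab]
        simp only
        split_ifs with hvS
        · exact h3 v hvS
        · rcases mem_union.1 hv with h | h
          · exact h2 v h
          · exact absurd h hvS
      · rintro ⟨h1, h2⟩
        refine ⟨⟨h1, fun v hv => ?_⟩, fun v hv => ?_⟩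
        · have h3 := h2 v (mem_union_left _ hv)
          rw [hab] at h3
          simp only at h3
          rw [if_neg (fun h => disjoint_left.1 hSJ h hv)] at h3
          exact h3
        · have h3 := h2 v (mem_union_right _ hv)
          rw [hab] at h3
          simp only at h3
          rw [if_pos hv] at h3
          exact h3
    have hcard : (J ∪ S).card = J.card + S.card :=
      card_union_of_disjoint hSJ.symm
    have hnot : ¬ X.card ≤ (P.filter (fun x => ∀ v ∈ S, x v = b v)).card * r ^ (J.card + S.card) := by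
      intro h
      have h1 : (J ∪ S, ab) ∈ Cd := by
        rw [hCd, mem_filter]
        refine ⟨mem_univ _, ?_, ?_⟩
        · exact disjoint_union_left.2 ⟨hJI, hSI⟩
        · simp only
          rw [← hfe, hcard]
          exact h
      have h2 := hmax _ h1
      simp only at h2
      rw [hcard] at h2
      omega
    have h3 : (P.filter (fun x => ∀ v ∈ S, x v = b v)).card * r ^ S.card * r ^ J.card
        ≤ P.card * r ^ J.card := by
      calc (P.filter (fun x => ∀ v ∈ S, x v = b v)).card * r ^ S.card * r ^ J.card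
          = (P.filter (fun x => ∀ v ∈ S, x v = b v)).card * r ^ (J.card + S.card) := by
            rw [pow_add]; ring
        _ ≤ X.card := by omega
        _ ≤ P.card * r ^ J.card := hJa1
    exact Nat.le_of_mul_le_mul_right h3 (pow_pos hr _)
  have hPX : P ⊆ X := filter_subset _ _
  have hlt : (X \ P).card < n := by
    rw [card_sdiff_of_subset hPX, ← hn]
    omega
  obtain ⟨Q, hQ1, hQ2, hQ3⟩ := ih _ hlt (X \ P) rfl
  refine ⟨P ∪ Q, union_subset hPX (hQ1.trans sdiff_subset), ?_, ?_⟩
  · have : X \ (P ∪ Q) = (X \ P) \ Q := by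
      ext x; simp [and_assoc]
    rw [this]; exact hQ2
  · intro x hx
    rcases mem_union.1 hx with h | h
    · refine ⟨J, P, hJI, subset_union_left, h, fun x' hx' v hv => ?_, hdense, by omega⟩
      rw [hP, mem_filter] at h hx'
      rw [hx'.2 v hv, h.2 v hv]
    · obtain ⟨J', P', h1, h2, h3, h4, h5, h6⟩ := hQ3 x h
      exact ⟨J', P', h1, h2.trans subset_union_right, h3, h4, h5, h6⟩

/-- Most rows lie in a dense piece of their class. -/
theorem clean_classes {r : ℕ} (hr : 0 < r) (I : Finset V) (X : Finset (V → Fin m))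
    {B : Type*} [Fintype B] [DecidableEq B] (cls : (V → Fin m) → B) :
    ∃ Q ⊆ X, X.card ≤ 2 * Q.card ∧ ∀ x ∈ Q, ∃ (J : Finset V) (P : Finset (V → Fin m)),
      Disjoint J I ∧ P ⊆ X ∧ x ∈ P ∧ (∀ x' ∈ P, cls x' = cls x) ∧
      (∀ x' ∈ P, ∀ v ∈ J, x' v = x v) ∧ Dense r (I ∪ J) P ∧
      X.card < P.card * r ^ J.card * (2 * Fintype.card B) := by
  classical
  set β := Fintype.card B with hβ
  set η := X.card / (2 * β) with hη
  have hex : ∀ b : B, ∃ X' ⊆ X.filter (fun x => cls x = b),
      ((X.filter (fun x => cls x = b)) \ X').card ≤ η ∧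
      ∀ x ∈ X', ∃ (J : Finset V) (P : Finset (V → Fin m)),
      Disjoint J I ∧ P ⊆ X' ∧ x ∈ P ∧ (∀ x' ∈ P, ∀ v ∈ J, x' v = x v) ∧ Dense r (I ∪ J) P ∧
      η < P.card * r ^ J.card := fun b => clean_rows2 hr I η _
  choose F hF1 hF2 hF3 using hex
  refine ⟨univ.biUnion F, ?_, ?_, ?_⟩
  · intro x hx
    rw [mem_biUnion] at hx
    obtain ⟨b, _, hb⟩ := hx
    exact (mem_filter.1 (hF1 b hb)).1
  · have h1 : X ⊆ univ.biUnion F ∪ univ.biUnion (fun b => (X.filter (fun x => cls x = b)) \ F b) := by
      intro x hx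
      by_cases h : x ∈ F (cls x)
      · exact mem_union_left _ (mem_biUnion.2 ⟨cls x, mem_univ _, h⟩)
      · refine mem_union_right _ (mem_biUnion.2 ⟨cls x, mem_univ _, mem_sdiff.2 ⟨?_, h⟩⟩)
        exact mem_filter.2 ⟨hx, rfl⟩
    have h2 : (univ.biUnion (fun b => (X.filter (fun x => cls x = b)) \ F b)).card ≤ β * η := by
      refine card_biUnion_le.trans ((sum_le_sum fun b _ => hF2 b).trans (le_of_eq ?_))
      rw [sum_const, card_univ, smul_eq_mul]
    have h3 := (card_le_card h1).trans (card_union_le _ _)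
    have h4 : 2 * (β * η) ≤ X.card := by
      calc 2 * (β * η) = (2 * β) * (X.card / (2 * β)) := by rw [hη]; ring
        _ ≤ X.card := Nat.mul_div_le _ _
    omega
  · intro x hx
    rw [mem_biUnion] at hx
    obtain ⟨b, _, hb⟩ := hx
    obtain ⟨J, P, h1, h2, h3, h4, h5, h6⟩ := hF3 b x hb
    have hcl : ∀ x' ∈ P, cls x' = b := fun x' hx' => (mem_filter.1 (hF1 b (h2 hx'))).2
    refine ⟨J, P, h1, fun x' hx' => (mem_filter.1 (hF1 b (h2 hx'))).1, h3,
      fun x' hx' => (hcl x' hx').trans (hcl x h3).symm, h4, h5, ?_⟩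
    have hβ0 : 0 < 2 * β := by
      have : 0 < β := Fintype.card_pos_iff.2 ⟨b⟩
      omega
    rw [hη] at h6
    exact (Nat.div_lt_iff_lt_mul hβ0).1 h6

end Pool.Agent.HM94.MSC
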