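import Pool.Agent.HM94.MSC.Core

/-!
# Cleaning sets of rows and sets of columns

Every set of rows is, up to few rows, a union of dense pieces with few fixed blocks.  Every set of
columns can be changed slightly such that every small pattern occurs often or never.
-/

set_option autoImplicit false
set_option linter.unusedSectionVars false

namespace Pool.Agent.HM94.MSC

open Finset

variable {V : Type*} [Fintype V] [DecidableEq V] {m : ℕ}

theorem card_agree_le (I : Finset V) (a : V → Fin m) :
    (univ.filter (fun x : V → Fin m => ∀ v ∈ I, x v = a v)).card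
      = m ^ (Fintype.card V - I.card) := by
  have h : univ.filter (fun x : V → Fin m => ∀ v ∈ I, x v = a v)
      = Fintype.piFinset (fun v => if v ∈ I then {a v} else univ) := by
    ext x
    rw [mem_filter, Fintype.mem_piFinset]
    constructor
    · intro h v
      split_ifs with hv
      · rw [mem_singleton]; exact h.2 v hv
      · exact mem_univ _
    · intro h
      refine ⟨mem_univ _, fun v hv => ?_⟩
      have := h v
      rw [if_pos hv, mem_singleton] at this
      exact this
  rw [h, Fintype.card_piFinset]
  have h2 : ∀ v : V, (if v ∈ I then ({a v} : Finset (Fin m)) else univ).card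
      = if v ∈ I then 1 else m := by
    intro v
    split_ifs <;> simp
  rw [prod_congr rfl fun v _ => h2 v, prod_ite, prod_const_one, one_mul, prod_const]
  congr 1
  have : univ.filter (fun v => v ∉ I) = univ \ I := by ext v; simp
  rw [this, card_sdiff_of_subset (subset_univ I), card_univ]

/-- A union of dense pieces with at most `d` fixed blocks. -/
def Decomp (r d : ℕ) (X : Finset (V → Fin m)) : Prop :=
  ∀ x ∈ X, ∃ (I : Finset V) (P : Finset (V → Fin m)), I.card ≤ d ∧ P ⊆ X ∧ x ∈ P ∧
    (∀ x' ∈ P, ∀ v ∈ I, x' v = x v) ∧ Dense r I P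

theorem clean_rows {r c : ℕ} (d : ℕ) (hr : 0 < r) (hc : 0 < c) (hm : c * r ≤ m)
    (X : Finset (V → Fin m)) :
    ∃ X' ⊆ X, (X \ X').card * c ^ (d + 1) ≤ m ^ Fintype.card V ∧ Decomp r d X' := by
  classical
  induction' hn : X.card using Nat.strong_induction_on with n ih generalizing X
  by_cases hsmall : X.card * c ^ (d + 1) ≤ m ^ Fintype.card V
  · exact ⟨∅, empty_subset _, by rw [sdiff_empty]; exact hsmall, fun x hx => absurd hx (notMem_empty x)⟩
  have hXn : X.Nonempty := by
    rw [nonempty_iff_ne_empty]
    rintro rfl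
    apply hsmall
    simp
  obtain ⟨x0, hx0⟩ := hXn
  -- the candidates
  set Cd : Finset (Finset V × (V → Fin m)) := univ.filter (fun q =>
    X.card ≤ (X.filter (fun x => ∀ v ∈ q.1, x v = q.2 v)).card * r ^ q.1.card) with hCd
  have hCn : Cd.Nonempty := by
    refine ⟨(∅, x0), ?_⟩
    rw [hCd, mem_filter]
    refine ⟨mem_univ _, ?_⟩
    simp
  obtain ⟨⟨I, a⟩, hIa, hmax⟩ := exists_max_image Cd (fun q => q.1.card) hCn
  rw [hCd, mem_filter] at hIa
  have hIa1 : X.card ≤ (X.filter (fun x => ∀ v ∈ I, x v = a v)).card * r ^ I.card := hIa.2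
  set P := X.filter (fun x => ∀ v ∈ I, x v = a v) with hP
  have hrpos : ∀ k, 0 < r ^ k := fun k => pow_pos hr k
  have hXpos : 0 < X.card := card_pos.2 ⟨x0, hx0⟩
  have hPpos : 0 < P.card := by
    by_contra h
    have : P.card = 0 := by omega
    rw [this, zero_mul] at hIa1
    omega
  have hId : I.card ≤ d := by
    by_contra hgt
    apply hsmall
    have hP1 : P.card ≤ m ^ (Fintype.card V - I.card) := by
      rw [← card_agree_le I a]
      exact card_le_card fun x hx => by
        rw [hP, mem_filter] at hx
        exact mem_filter.2 ⟨mem_univ _, hx.2⟩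
    have hIV : I.card ≤ Fintype.card V := card_le_univ I
    calc X.card * c ^ (d + 1) ≤ (P.card * r ^ I.card) * c ^ I.card := by
          refine Nat.mul_le_mul hIa1 (Nat.pow_le_pow_right hc (by omega))
      _ = P.card * (c * r) ^ I.card := by rw [mul_pow]; ring
      _ ≤ m ^ (Fintype.card V - I.card) * m ^ I.card :=
          Nat.mul_le_mul hP1 (Nat.pow_le_pow_left hm _)
      _ = m ^ Fintype.card V := by rw [← pow_add]; congr 1; omega
  have hdense : Dense r I P := by
    intro S hS b
    by_cases hSe : S = ∅
    · subst hSe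
      simp
    have hSpos : 0 < S.card := card_pos.2 (nonempty_iff_ne_empty.2 hSe)
    set ab : V → Fin m := fun v => if v ∈ S then b v else a v with hab
    have hfe : P.filter (fun x => ∀ v ∈ S, x v = b v)
        = X.filter (fun x => ∀ v ∈ I ∪ S, x v = ab v) := by
      ext x
      rw [hP, mem_filter, mem_filter, mem_filter]
      constructor
      · rintro ⟨⟨h1, h2⟩, h3⟩
        refine ⟨h1, fun v hv => ?_⟩
        rw [hab]
        simp only
        split_ifs with hvS
        · exact h3 v hvS
        · rcases mem_union.1 hv with h | h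
          · exact h2 v h
          · exact absurd h hvS
      · rintro ⟨h1, h2⟩
        refine ⟨⟨h1, fun v hv => ?_⟩, fun v hv => ?_⟩
        · have h3 := h2 v (mem_union_left _ hv)
          rw [hab] at h3
          simp only at h3
          rw [if_neg (fun h => disjoint_left.1 hS h hv)] at h3
          exact h3
        · have h3 := h2 v (mem_union_right _ hv)
          rw [hab] at h3
          simp only at h3
          rw [if_pos hv] at h3
          exact h3
    have hcard : (I ∪ S).card = I.card + S.card :=
      card_union_of_disjoint hS.symm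
    have hnot : ¬ X.card ≤ (P.filter (fun x => ∀ v ∈ S, x v = b v)).card * r ^ (I.card + S.card) := by
      intro h
      have h1 : (I ∪ S, ab) ∈ Cd := by
        rw [hCd, mem_filter]
        refine ⟨mem_univ _, ?_⟩
        simp only
        rw [← hfe, hcard]
        exact h
      have h2 := hmax _ h1
      simp only at h2
      rw [hcard] at h2
      omega
    have h3 : (P.filter (fun x => ∀ v ∈ S, x v = b v)).card * r ^ S.card * r ^ I.card
        ≤ P.card * r ^ I.card := by
      calc (P.filter (fun x => ∀ v ∈ S, x v = b v)).card * r ^ S.card * r ^ I.card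
          = (P.filter (fun x => ∀ v ∈ S, x v = b v)).card * r ^ (I.card + S.card) := by
            rw [pow_add]; ring
        _ ≤ X.card := by omega
        _ ≤ P.card * r ^ I.card := hIa1
    exact Nat.le_of_mul_le_mul_right h3 (hrpos _)
  -- the rest
  have hPX : P ⊆ X := filter_subset _ _
  have hlt : (X \ P).card < n := by
    rw [card_sdiff_of_subset hPX, ← hn]
    omega
  obtain ⟨R, hR1, hR2, hR3⟩ := ih _ hlt (X \ P) rfl
  refine ⟨P ∪ R, union_subset hPX (hR1.trans sdiff_subset), ?_, ?_⟩
  · have : X \ (P ∪ R) = (X \ P) \ R := by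
      ext x; simp [and_assoc]
    rw [this]; exact hR2
  · intro x hx
    rcases mem_union.1 hx with h | h
    · refine ⟨I, P, hId, subset_union_left, h, fun x' hx' v hv => ?_, hdense⟩
      rw [hP, mem_filter] at h hx'
      rw [hx'.2 v hv, h.2 v hv]
    · obtain ⟨I', P', h1, h2, h3, h4, h5⟩ := hR3 x h
      exact ⟨I', P', h1, h2.trans subset_union_right, h3, h4, h5⟩

/-- A column matches a pattern. -/
def Mt {W : Type*} (π : Finset (W × Bool)) (y : W → Bool) : Prop := ∀ q ∈ π, y q.1 = q.2

instance {W : Type*} (π : Finset (W × Bool)) (y : W → Bool) : Decidable (Mt π y) := by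
  unfold Mt; infer_instance

theorem clean_cols {W : Type*} [Fintype W] [DecidableEq W] (Y : Finset (W → Bool))
    (Pats : Finset (Finset (W × Bool))) (θ : ℕ) :
    ∃ Y' ⊆ Y, (Y \ Y').card ≤ Pats.card * θ ∧
      ∀ π ∈ Pats, ∀ y ∈ Y', Mt π y → θ ≤ (Y'.filter (fun y => Mt π y)).card := by
  classical
  set Cd : Finset (Finset (Finset (W × Bool))) := Pats.powerset.filter (fun Q =>
    (Y.filter (fun y => ∃ π ∈ Q, Mt π y)).card ≤ Q.card * θ) with hCd
  have hCn : Cd.Nonempty := by
    refine ⟨∅, ?_⟩
    rw [hCd, mem_filter]
    refine ⟨by simp, ?_⟩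
    simp
  obtain ⟨Q, hQ, hmax⟩ := exists_max_image Cd card hCn
  rw [hCd, mem_filter, mem_powerset] at hQ
  refine ⟨Y.filter (fun y => ¬ ∃ π ∈ Q, Mt π y), filter_subset _ _, ?_, ?_⟩
  · have h1 : Y \ Y.filter (fun y => ¬ ∃ π ∈ Q, Mt π y)
        ⊆ Y.filter (fun y => ∃ π ∈ Q, Mt π y) := by
      intro y hy
      rw [mem_sdiff, mem_filter, not_and_not_right] at hy
      exact mem_filter.2 ⟨hy.1, hy.2 hy.1⟩
    exact (card_le_card h1).trans (hQ.2.trans (Nat.mul_le_mul_right _ (card_le_card hQ.1)))
  · intro π hπ y hy hyπ
    rw [mem_filter] at hy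
    have hπQ : π ∉ Q := fun h => hy.2 ⟨π, h, hyπ⟩
    by_contra hlt
    rw [not_le] at hlt
    have h1 : insert π Q ∈ Cd := by
      rw [hCd, mem_filter, mem_powerset]
      refine ⟨insert_subset hπ hQ.1, ?_⟩
      rw [card_insert_of_notMem hπQ]
      have h2 : Y.filter (fun y => ∃ π' ∈ insert π Q, Mt π' y)
          ⊆ Y.filter (fun y => ∃ π' ∈ Q, Mt π' y) ∪
            (Y.filter (fun y => ¬ ∃ π ∈ Q, Mt π y)).filter (fun y => Mt π y) := by
        intro y' hy'
        rw [mem_filter] at hy'
        rw [mem_union, mem_filter, mem_filter, mem_filter]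
        by_cases h : ∃ π' ∈ Q, Mt π' y'
        · exact Or.inl ⟨hy'.1, h⟩
        · obtain ⟨π', h3, h4⟩ := hy'.2
          rcases mem_insert.1 h3 with h5 | h5
          · subst h5
            exact Or.inr ⟨⟨hy'.1, h⟩, h4⟩
          · exact absurd ⟨π', h5, h4⟩ h
      refine (card_le_card h2).trans ((card_union_le _ _).trans ?_)
      rw [add_mul, one_mul]
      exact Nat.add_le_add hQ.2 hlt.le
    have h2 := hmax _ h1
    rw [card_insert_of_notMem hπQ] at h2
    omega

/-- The number of small sets. -/
theorem card_small_sets (W : Type*) [Fintype W] [DecidableEq W] (d : ℕ) :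
    (univ.filter (fun π : Finset W => π.card ≤ d)).card ≤ (Fintype.card W + 1) ^ d := by
  classical
  induction d with
  | zero =>
    rw [pow_zero, card_le_one]
    intro a ha b hb
    rw [mem_filter] at ha hb
    rw [card_eq_zero.1 (Nat.le_zero.1 ha.2), card_eq_zero.1 (Nat.le_zero.1 hb.2)]
  | succ d ih =>
    have h1 : (univ.filter (fun π : Finset W => π.card ≤ d + 1))
        ⊆ ((univ : Finset (Option W)) ×ˢ (univ.filter (fun π : Finset W => π.card ≤ d))).image
          (fun q => match q.1 with
            | none => q.2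
            | some w => insert w q.2) := by
      intro π hπ
      rw [mem_filter] at hπ
      rw [mem_image]
      by_cases he : π = ∅
      · refine ⟨(none, ∅), ?_, he.symm⟩
        simp
      · obtain ⟨w, hw⟩ := nonempty_iff_ne_empty.2 he
        refine ⟨(some w, π.erase w), ?_, ?_⟩
        · rw [mem_product, mem_filter]
          refine ⟨mem_univ _, mem_univ _, ?_⟩
          simp only
          rw [card_erase_of_mem hw]
          omega
        · simp only
          exact insert_erase hw
    refine (card_le_card h1).trans (card_image_le.trans ?_)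
    rw [card_product, card_univ, Fintype.card_option, pow_succ, mul_comm]
    exact Nat.mul_le_mul_right _ ih

theorem half_or {A : Type*} [DecidableEq A] (S : Finset A) (u v : A → Prop) [DecidablePred u]
    [DecidablePred v] (h : ∀ x ∈ S, u x ∨ v x) :
    S.card ≤ 2 * (S.filter u).card ∨ S.card ≤ 2 * (S.filter v).card := by
  have h1 : S ⊆ S.filter u ∪ S.filter v := by
    intro x hx
    rw [mem_union, mem_filter, mem_filter]
    rcases h x hx with h2 | h2
    · exact Or.inl ⟨hx, h2⟩
    · exact Or.inr ⟨hx, h2⟩
  have h2 := (card_le_card h1).trans (card_union_le _ _)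
  omega

end Pool.Agent.HM94.MSC
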