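import Mathlib

/-!
# Circuits, register programs, layered path systems
-/

set_option autoImplicit false

namespace Pool.Agent.HM94.MSC

/-- The gate number `j` of a circuit: an input, a constant, or NOT, AND, OR of earlier gates. -/
inductive Gate (ι : Type) (j : ℕ) where
  | inp (i : ι)
  | cst (b : Bool)
  | neg (a : Fin j)
  | and (a b : Fin j)
  | or (a b : Fin j)

/-- A Boolean circuit with `s` gates (inputs and constants are counted as gates). -/
structure Circ (ι : Type) (s : ℕ) where
  gate : (j : Fin s) → Gate ι j

/-- The gate `a < j`, as a gate of the circuit. -/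
def up {s : ℕ} (j : Fin s) (a : Fin (j : ℕ)) : Fin s := ⟨a, a.2.trans j.2⟩

namespace Circ

variable {ι : Type} {s : ℕ}

/-- The value of a gate. -/
def val (C : Circ ι s) (x : ι → Bool) (j : Fin s) : Bool :=
  match C.gate j with
  | .inp i => x i
  | .cst b => b
  | .neg a => !(C.val x (up j a))
  | .and a b => C.val x (up j a) && C.val x (up j b)
  | .or a b => C.val x (up j a) || C.val x (up j b)
termination_by j.1
decreasing_by all_goals simp [up]

/-- The depth of a gate. -/
def depth (C : Circ ι s) (j : Fin s) : ℕ :=
  match C.gate j with
  | .inp _ => 0
  | .cst _ => 0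
  | .neg a => C.depth (up j a) + 1
  | .and a b => max (C.depth (up j a)) (C.depth (up j b)) + 1
  | .or a b => max (C.depth (up j a)) (C.depth (up j b)) + 1
termination_by j.1
decreasing_by all_goals simp [up]

/-- NOT gates are applied only to functions which do not depend on the inputs in `H`. -/
def NegOutside (C : Circ ι s) (H : Set ι) : Prop :=
  ∀ (j : Fin s) (a : Fin (j : ℕ)), C.gate j = .neg a →
    ∀ x x' : ι → Bool, (∀ i, i ∉ H → x i = x' i) → C.val x (up j a) = C.val x' (up j a)

end Circ

/-- An instruction of a program with the registers `R`: the register `q` gets an input, a constant,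
or NOT, AND, OR of the contents of registers. -/
inductive Instr (ι R : Type) where
  | inp (q : R) (i : ι)
  | cst (q : R) (b : Bool)
  | neg (q a : R)
  | and (q a b : R)
  | or (q a b : R)

/-- The effect of an instruction on the contents of the registers. -/
def Instr.step {ι R : Type} [DecidableEq R] (x : ι → Bool) (σ : R → Bool) :
    Instr ι R → R → Bool
  | .inp q i => Function.update σ q (x i)
  | .cst q b => Function.update σ q b
  | .neg q a => Function.update σ q (!(σ a))
  | .and q a b => Function.update σ q (σ a && σ b)
  | .or q a b => Function.update σ q (σ a || σ b)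

/-- The contents of the registers after the program, started with the contents `σ`. -/
def run {ι R : Type} [DecidableEq R] (x : ι → Bool) (P : List (Instr ι R)) (σ : R → Bool) :
    R → Bool :=
  P.foldl (Instr.step x) σ

/-- The program started with `false` in all registers. -/
def exec {ι R : Type} [DecidableEq R] (x : ι → Bool) (P : List (Instr ι R)) : R → Bool :=
  run x P fun _ => false

/-- NOT is applied only to functions which do not depend on the inputs in `H`. -/
def NegOutside {ι R : Type} [DecidableEq R] (P : List (Instr ι R)) (H : Set ι) : Prop :=
  ∀ (P₁ P₂ : List (Instr ι R)) (q a : R), P = P₁ ++ Instr.neg q a :: P₂ →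
    ∀ x x' : ι → Bool, (∀ i, i ∉ H → x i = x' i) → exec x P₁ a = exec x' P₁ a

section path

variable (T k m : ℕ)

/-- The inputs of a layered path system with `T` layers of rules, `k` columns and `m` elements in
every node.  The rule `(t, i, a, b, c)` says that the element `c` of the node `(t + 1, i)` is
reached if the element `a` of the node `(t, f i)` and the element `b` of the node `(t, g i)` are
reached. -/
abbrev Rule : Type := Fin T × ZMod k × Fin m × Fin m × Fin m

variable {T k m} (f g : ZMod k → ZMod k)

/-- The reached elements; all elements of the layer `0` are reached. -/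
def Reach (e : Rule T k m → Bool) : ℕ → ZMod k → Fin m → Prop
  | 0, _, _ => True
  | t + 1, i, c => ∃ (h : t < T) (a b : Fin m), e (⟨t, h⟩, i, a, b, c) = true ∧
      Reach e t (f i) a ∧ Reach e t (g i) b

open Classical in
/-- Some element of the node `(T, 0)` is reached. -/
noncomputable def PS (e : Rule T k m → Bool) : Bool := decide (∃ c, Reach f g e T 0 c)

end path

end Pool.Agent.HM94.MSC
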