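import Pool.Agent.HM94.MSC.Defs

/-!
# The hard inputs of layered path systems

Only the rules of the layers in `L` vary; the other layers are copied.
-/

set_option autoImplicit false

namespace Pool.Agent.HM94.MSC

open Finset

section rk

variable {T : ℕ} (L : Finset (Fin T))

/-- The number of layers of `L` below `t`. -/
def rk (t : ℕ) : ℕ := (L.filter (fun u : Fin T => (u : ℕ) < t)).card

theorem rk_zero : rk L 0 = 0 := by
  unfold rk; simp

theorem rk_top : rk L T = L.card := by
  unfold rk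
  congr 1
  rw [filter_true_of_mem]
  intro u _
  exact u.2

theorem rk_le (t : ℕ) : rk L t ≤ L.card := card_le_card (filter_subset _ _)

theorem rk_succ_mem {t : ℕ} (ht : t < T) (h : (⟨t, ht⟩ : Fin T) ∈ L) : rk L (t + 1) = rk L t + 1 := by
  unfold rk
  have : L.filter (fun u : Fin T => (u : ℕ) < t + 1)
      = insert ⟨t, ht⟩ (L.filter (fun u : Fin T => (u : ℕ) < t)) := by
    ext u
    rw [mem_insert, mem_filter, mem_filter]
    constructor
    · rintro ⟨h1, h2⟩
      by_cases h3 : (u : ℕ) = t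
      · left; exact Fin.ext h3
      · right; exact ⟨h1, by omega⟩
    · rintro (h1 | h1)
      · subst h1; exact ⟨h, by simp⟩
      · exact ⟨h1.1, by omega⟩
  rw [this, card_insert_of_notMem]
  simp

theorem rk_succ_notMem {t : ℕ} (ht : t < T) (h : (⟨t, ht⟩ : Fin T) ∉ L) :
    rk L (t + 1) = rk L t := by
  unfold rk
  congr 1
  ext u
  rw [mem_filter, mem_filter]
  constructor
  · rintro ⟨h1, h2⟩
    refine ⟨h1, ?_⟩
    by_contra h3
    have h4 : u = ⟨t, ht⟩ := Fin.ext (by simp; omega)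
    rw [h4] at h1
    exact h h1
  · rintro ⟨h1, h2⟩
    exact ⟨h1, by omega⟩

end rk

section nodes

variable {k : ℕ} (R : ℕ)

/-- The node `(u, i)`. -/
def nd (u : ℕ) (i : ZMod k) : Fin (R + 1) × ZMod k := (Fin.ofNat (R + 1) u, i)

theorem nd_fst {u : ℕ} (h : u ≤ R) (i : ZMod k) : ((nd R u i).1 : ℕ) = u := by
  unfold nd
  simp only [Fin.ofNat]
  exact Nat.mod_eq_of_lt (by omega)

/-- A path from the sink `(T, 0)` to the bottom layer. -/
def IsPath (f g : ZMod k → ZMod k) (T : ℕ) (p : ℕ → ZMod k) : Prop :=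
  p T = 0 ∧ ∀ t < T, p t = f (p (t + 1)) ∨ p t = g (p (t + 1))

/-- The node lies on the path. -/
def On {T k : ℕ} (p : ℕ → ZMod k) (v : Fin (T + 1) × ZMod k) : Prop := v.2 = p v.1

instance {T k : ℕ} (p : ℕ → ZMod k) (v : Fin (T + 1) × ZMod k) : Decidable (On p v) := by
  unfold On; infer_instance

end nodes

variable {T k m : ℕ} (f g : ZMod k → ZMod k) (L : Finset (Fin T))

/-- The positive inputs. -/
def alp (x : Fin (L.card + 1) × ZMod k → Fin m) : Rule T k m → Bool :=
  fun e => if e.1 ∈ L then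
      decide (x (nd L.card (rk L e.1) (f e.2.1)) = e.2.2.1 ∧
        x (nd L.card (rk L e.1) (g e.2.1)) = e.2.2.2.1 ∧
        x (nd L.card (rk L e.1 + 1) e.2.1) = e.2.2.2.2)
    else decide (e.2.2.1 = e.2.2.2.2)

/-- The boundary conditions. -/
def bd (y : (Fin (L.card + 1) × ZMod k) × Fin m → Bool) (v : Fin (L.card + 1) × ZMod k)
    (c : Fin m) : Bool :=
  if (v.1 : ℕ) = 0 then true else if (v.1 : ℕ) = L.card ∧ v.2 = 0 then false else y (v, c)

/-- The negative inputs. -/
def bet (y : (Fin (L.card + 1) × ZMod k) × Fin m → Bool) : Rule T k m → Bool :=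
  fun e => if e.1 ∈ L then
      !(bd L y (nd L.card (rk L e.1) (f e.2.1)) e.2.2.1 &&
        bd L y (nd L.card (rk L e.1) (g e.2.1)) e.2.2.2.1 &&
        !(bd L y (nd L.card (rk L e.1 + 1) e.2.1) e.2.2.2.2))
    else decide (e.2.2.1 = e.2.2.2.2)

variable {f g}

theorem reach_alp (hf : ∀ t, t ∉ L → ∀ i, f i = i) (x : Fin (L.card + 1) × ZMod k → Fin m)
    {t : ℕ} (ht : t ≤ T) (i : ZMod k) :
    Reach f g (alp f g L x) t i (x (nd L.card (rk L t) i)) := by
  induction t generalizing i with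
  | zero => trivial
  | succ t ih =>
    by_cases h : (⟨t, ht⟩ : Fin T) ∈ L
    · refine ⟨ht, x (nd L.card (rk L t) (f i)), x (nd L.card (rk L t) (g i)), ?_,
        ih (by omega) _, ih (by omega) _⟩
      unfold alp
      rw [if_pos h, rk_succ_mem L ht h]
      simp
    · refine ⟨ht, x (nd L.card (rk L t) (f i)), x (nd L.card (rk L t) (g i)), ?_,
        ih (by omega) _, ih (by omega) _⟩
      unfold alp
      rw [if_neg h, rk_succ_notMem L ht h, hf _ h i]
      simp

theorem PS_alp (hf : ∀ t, t ∉ L → ∀ i, f i = i) (x : Fin (L.card + 1) × ZMod k → Fin m) :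
    PS f g (alp f g L x : Rule T k m → Bool) = true := by
  simp only [PS, decide_eq_true_eq]
  exact ⟨_, reach_alp L hf x le_rfl 0⟩

theorem reach_bet (hf : ∀ t, t ∉ L → ∀ i, f i = i)
    (y : (Fin (L.card + 1) × ZMod k) × Fin m → Bool) {t : ℕ} (ht : t ≤ T)
    (i : ZMod k) (c : Fin m) (h : Reach f g (bet f g L y) t i c) :
    bd L y (nd L.card (rk L t) i) c = true := by
  induction t generalizing i c with
  | zero =>
    unfold bd
    rw [rk_zero, nd_fst _ (Nat.zero_le _)]
    simp
  | succ t ih =>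
    obtain ⟨h1, a, b, h2, h3, h4⟩ := h
    have h5 := ih (by omega) _ a h3
    have h6 := ih (by omega) _ b h4
    unfold bet at h2
    simp only at h2
    by_cases hL : (⟨t, h1⟩ : Fin T) ∈ L
    · rw [if_pos hL, h5, h6] at h2
      rw [rk_succ_mem L h1 hL]
      simpa using h2
    · rw [if_neg hL, decide_eq_true_eq] at h2
      rw [rk_succ_notMem L h1 hL, ← h2]
      rw [hf _ hL i] at h5
      exact h5

theorem PS_bet (hf : ∀ t, t ∉ L → ∀ i, f i = i) (hL : L.card ≠ 0)
    (y : (Fin (L.card + 1) × ZMod k) × Fin m → Bool) :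
    PS f g (bet f g L y : Rule T k m → Bool) = false := by
  simp only [PS, decide_eq_false_iff_not]
  rintro ⟨c, hc⟩
  have h1 := reach_bet L hf y le_rfl 0 c hc
  unfold bd at h1
  rw [rk_top, nd_fst _ le_rfl, if_neg hL, if_pos ⟨rfl, rfl⟩] at h1
  exact absurd h1 (by simp)

theorem alp_outside {e : Rule T k m} (he : e.1 ∉ L) (x : Fin (L.card + 1) × ZMod k → Fin m)
    (y : (Fin (L.card + 1) × ZMod k) × Fin m → Bool) : alp f g L x e = bet f g L y e := by
  unfold alp bet
  rw [if_neg he, if_neg he]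

end Pool.Agent.HM94.MSC
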