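import Pool.Agent.HM94.MSC.Clean
import Pool.Agent.HM94.MSC.Hard

/-!
# At an input the horizon has been reached
-/

set_option autoImplicit false

namespace Pool.Agent.HM94.MSC

open Finset

/-- The nodes. -/
abbrev Nd {T : ℕ} (L : Finset (Fin T)) (k : ℕ) : Type := Fin (L.card + 1) × ZMod k

variable {T k m : ℕ} [NeZero k] {f g : ZMod k → ZMod k} (L : Finset (Fin T))

theorem leaf {r : ℕ} (hr2 : 2 ≤ r) {p : ℕ → ZMod k} {I : Finset (Nd L k)}
    {P : Finset (Nd L k → Fin m)} {x0 : Nd L k → Fin m} {y0 : Nd L k × Fin m → Bool}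
    (hp : IsPath f g L.card p) (hx0 : x0 ∈ P) (hd : Dense r I P)
    (hyI : ∀ v ∈ I, y0 (v, x0 v) = !(decide (On p v))) {h : ℕ}
    (hhI : ∀ v ∈ I, On p v → h ≤ (v.1 : ℕ)) (e : Rule T k m)
    (hX : ∀ x ∈ P, alp f g L x e = true) (hy : bet f g L y0 e = false) : h = 0 := by
  classical
  by_contra hh
  obtain ⟨t, i, a, b, c⟩ := e
  have heL : t ∈ L := by
    by_contra hc
    have h1 := hX x0 hx0
    rw [alp_outside L (e := (t, i, a, b, c)) hc x0 y0, hy] at h1
    exact absurd h1 (by simp)
  have hxP : ∀ x ∈ P, x (nd L.card (rk L t) (f i)) = a ∧ x (nd L.card (rk L t) (g i)) = b ∧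
      x (nd L.card (rk L t + 1) i) = c := by
    intro x hx
    have h1 := hX x hx
    unfold alp at h1
    simp only at h1
    rw [if_pos heL, decide_eq_true_eq] at h1
    exact h1
  have hmemI : ∀ v : Nd L k, ∀ c' : Fin m, (∀ x ∈ P, x v = c') → v ∈ I := by
    intro v c' hc
    by_contra hvI
    have h1 := hd {v} (by simpa using hvI) (fun _ => c')
    have h2 : P.filter (fun x => ∀ w ∈ ({v} : Finset (Nd L k)), x w = c') = P := by
      refine filter_true_of_mem fun x hx w hw => ?_
      rw [mem_singleton] at hw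
      subst hw
      exact hc x hx
    rw [h2, card_singleton, pow_one] at h1
    have h3 : 0 < P.card := card_pos.2 ⟨x0, hx0⟩
    have h4 : P.card * 2 ≤ P.card * r := Nat.mul_le_mul_left _ hr2
    omega
  have hu1 := hmemI _ _ fun x hx => (hxP x hx).1
  have hu2 := hmemI _ _ fun x hx => (hxP x hx).2.1
  have hw := hmemI _ _ fun x hx => (hxP x hx).2.2
  obtain ⟨ha, hb, hc⟩ := hxP x0 hx0
  unfold bet at hy
  simp only at hy
  rw [if_pos heL] at hy
  have hy' : bd L y0 (nd L.card (rk L t) (f i)) a = true ∧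
      bd L y0 (nd L.card (rk L t) (g i)) b = true ∧
      bd L y0 (nd L.card (rk L t + 1) i) c = false := by
    revert hy
    generalize bd L y0 (nd L.card (rk L t) (f i)) a = A
    generalize bd L y0 (nd L.card (rk L t) (g i)) b = B
    generalize bd L y0 (nd L.card (rk L t + 1) i) c = C
    cases A <;> cases B <;> cases C <;> simp
  obtain ⟨hya, hyb, hyc⟩ := hy'
  have hrk : rk L t + 1 ≤ L.card := by
    have h1 := rk_succ_mem L t.2 heL
    have h2 := rk_le L (t + 1)
    have h3 : rk L (t + 1) = rk L t + 1 := h1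
    omega
  -- the upper node is on the path
  have hwon : On p (nd L.card (rk L t + 1) i : Nd L k) := by
    unfold bd at hyc
    rw [nd_fst _ hrk, if_neg (by omega)] at hyc
    split_ifs at hyc with h1
    · unfold On
      rw [nd_fst _ hrk, h1.1, hp.1]
      exact h1.2
    · have h2 := hyI _ hw
      rw [hc, hyc] at h2
      simpa using h2.symm
  have hwh := hhI _ hw hwon
  rw [nd_fst _ hrk] at hwh
  have hpi : p (rk L t + 1) = i := by
    unfold On at hwon
    rw [nd_fst _ hrk] at hwon
    exact hwon.symm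
  -- one of the lower nodes is on the path
  have hlow : ∀ (j : ZMod k) (a' : Fin m), p (rk L t) = j →
      nd L.card (rk L t) j ∈ I → x0 (nd L.card (rk L t) j) = a' →
      bd L y0 (nd L.card (rk L t) j) a' = true → False := by
    intro j a' hpj hjI hja hbd
    have hon : On p (nd L.card (rk L t) j : Nd L k) := by
      unfold On
      rw [nd_fst _ (by omega), hpj]
      rfl
    have h1 := hhI _ hjI hon
    rw [nd_fst _ (by omega)] at h1
    have h2 := hyI _ hjI
    rw [hja, decide_eq_true hon] at h2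
    unfold bd at hbd
    rw [nd_fst _ (by omega), if_neg (by omega), if_neg (by rintro ⟨h3, _⟩; omega), h2] at hbd
    exact absurd hbd (by simp)
  rcases hp.2 (rk L t) (by omega) with h1 | h1
  · exact hlow (f i) a (by rw [h1, hpi]) hu1 ha hya
  · exact hlow (g i) b (by rw [h1, hpi]) hu2 hb hyb

end Pool.Agent.HM94.MSC
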