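import Pool.Agent.HM94.MSC.Hard

/-!
# Descending paths in a cylinder, and the adversary

The nodes are the pairs `(t, i)`, `t ≤ T`, `i ∈ ZMod k`.  A path passes through one node `(t, p t)`
of every layer, `p T = 0`, and `p t ∈ {p (t+1), p (t+1) + 1}`.
-/

set_option autoImplicit false

namespace Pool.Agent.HM94.MSC

open Finset

/-- The wiring of the cylinder. -/
abbrev fC {k : ℕ} : ZMod k → ZMod k := fun i => i

/-- The wiring of the cylinder. -/
abbrev gC {k : ℕ} : ZMod k → ZMod k := fun i => i + 1

theorem reroute {T k g : ℕ} (hk : g + 1 ≤ k) {p : ℕ → ZMod k} (hp : IsPath fC gC T p)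
    {h : ℕ} (hT : h ≤ T) (hh : (g + 1) * g ≤ h) {I K : Finset (Fin (T + 1) × ZMod k)}
    (hIK : I ⊆ K) (hK : K.card ≤ g) (hI : ∀ v ∈ I, On p v → h ≤ (v.1 : ℕ)) :
    ∃ q, IsPath fC gC T q ∧ (∀ v ∈ I, (On q v ↔ On p v)) ∧
      ∀ v ∈ K, On q v → h - g * g ≤ (v.1 : ℕ) := by
  classical
  rcases Nat.eq_zero_or_pos g with hg | hg
  · subst hg
    have hKe : K = ∅ := card_eq_zero.1 (Nat.le_zero.1 hK)
    subst hKe
    exact ⟨p, hp, fun v _ => Iff.rfl, fun v hv => absurd hv (notMem_empty v)⟩
  -- a free window
  have hwin : ∃ j ≤ g, ∀ v ∈ K, ¬ (h - (j + 1) * g ≤ (v.1 : ℕ) ∧ (v.1 : ℕ) < h - j * g) := by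
    by_contra hcon
    push Not at hcon
    choose! f hf1 hf2 hf3 using hcon
    have hinj : Set.InjOn f (range (g + 1) : Finset ℕ) := by
      intro a ha b hb hab
      rw [coe_range, Set.mem_Iio] at ha hb
      have ha2 := hf2 a (by omega)
      have ha3 := hf3 a (by omega)
      have hb2 := hf2 b (by omega)
      have hb3 := hf3 b (by omega)
      rw [← hab] at hb2 hb3
      have hag : (a + 1) * g ≤ (g + 1) * g := Nat.mul_le_mul_right _ (by omega)
      have hbg : (b + 1) * g ≤ (g + 1) * g := Nat.mul_le_mul_right _ (by omega)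
      by_contra hne
      rcases Nat.lt_or_gt_of_ne hne with hlt | hlt
      · have : (a + 1) * g ≤ b * g := Nat.mul_le_mul_right _ hlt
        omega
      · have : (b + 1) * g ≤ a * g := Nat.mul_le_mul_right _ hlt
        omega
    have := card_le_card_of_injOn f (s := range (g + 1)) (t := K)
      (fun a ha => hf1 a (by have := mem_range.1 ha; omega)) hinj
    rw [card_range] at this
    omega
  obtain ⟨j, hj, hwin⟩ := hwin
  set w0 := h - (j + 1) * g with hw0
  set top := h - j * g with htop
  have hjg : (j + 1) * g ≤ h := (Nat.mul_le_mul_right _ (by omega)).trans hh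
  have hjg' : (j + 1) * g = j * g + g := by ring
  have htw : top = w0 + g := by omega
  have htoph : top ≤ h := Nat.sub_le _ _
  -- a free column
  have hcol : ∃ c ≤ g, ∀ v ∈ K, ¬ ((v.1 : ℕ) < w0 ∧ v.2 = p top + (c : ZMod k)) := by
    by_contra hcon
    push Not at hcon
    choose! f hf1 hf2 hf3 using hcon
    have hinj : Set.InjOn f (range (g + 1) : Finset ℕ) := by
      intro a ha b hb hab
      rw [coe_range, Set.mem_Iio] at ha hb
      have ha3 := hf3 a (by omega)
      have hb3 := hf3 b (by omega)
      rw [← hab, ha3] at hb3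
      have h1 : (a : ZMod k) = (b : ZMod k) := add_left_cancel hb3
      rw [ZMod.natCast_eq_natCast_iff'] at h1
      rwa [Nat.mod_eq_of_lt (by omega), Nat.mod_eq_of_lt (by omega)] at h1
    have := card_le_card_of_injOn f (s := range (g + 1)) (t := K)
      (fun a ha => hf1 a (by have := mem_range.1 ha; omega)) hinj
    rw [card_range] at this
    omega
  obtain ⟨c, hc, hcol⟩ := hcol
  set q : ℕ → ZMod k := fun t => if top ≤ t then p t else p top + ((min c (top - t) : ℕ) : ZMod k)
    with hq
  have hqt : ∀ t, top ≤ t → q t = p t := fun t ht => by rw [hq]; simp only; rw [if_pos ht]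
  have hqb : ∀ t, t < top → q t = p top + ((min c (top - t) : ℕ) : ZMod k) := fun t ht => by
    rw [hq]; simp only; rw [if_neg (by omega)]
  have hqb' : ∀ t, t ≤ top → q t = p top + ((min c (top - t) : ℕ) : ZMod k) := by
    intro t ht
    rcases Nat.lt_or_ge t top with h1 | h1
    · exact hqb t h1
    · have : t = top := by omega
      subst this
      rw [hqt _ le_rfl]; simp
  have key : ∀ v ∈ K, On q v → top ≤ (v.1 : ℕ) := by
    intro v hv hon
    by_contra hlt
    rw [not_le] at hlt
    rcases Nat.lt_or_ge (v.1 : ℕ) w0 with h1 | h1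
    · refine hcol v hv ⟨h1, ?_⟩
      unfold On at hon
      rw [hon, hqb _ hlt, Nat.min_eq_left (by omega)]
    · exact hwin v hv ⟨h1, hlt⟩
  refine ⟨q, ⟨?_, ?_⟩, ?_, ?_⟩
  · rw [hqt _ (by omega)]; exact hp.1
  · intro t ht
    rcases Nat.lt_or_ge t top with h1 | h1
    · rw [hqb' t h1.le, hqb' (t + 1) h1]
      rcases Nat.lt_or_ge (top - t) (c + 1) with h2 | h2
      · right
        have h3 : min c (top - t) = min c (top - (t + 1)) + 1 := by omega
        rw [h3]; push_cast; ring
      · left
        have h3 : min c (top - t) = min c (top - (t + 1)) := by omega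
        rw [h3]
    · rw [hqt t h1, hqt (t + 1) (by omega)]
      exact hp.2 t ht
  · intro v hv
    constructor
    · intro hon
      have h1 := key v (hIK hv) hon
      unfold On at hon ⊢
      rw [hon, hqt _ h1]
    · intro hon
      have h1 := hI v hv hon
      unfold On at hon ⊢
      rw [hon, hqt _ (by omega)]
  · intro v hv hon
    have h1 := key v hv hon
    have h2 : j * g ≤ g * g := Nat.mul_le_mul_right _ hj
    omega

end Pool.Agent.HM94.MSC
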