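import Pool.Agent.HM94.MSC.Leaf
import Pool.Agent.HM94.MSC.Path

/-!
# Small circuits of small depth do not solve layered path systems
-/

set_option autoImplicit false

namespace Pool.Agent.HM94.MSC

open Finset

theorem exists_rec {s : ℕ} {A : Type*} (R : (j : Fin s) → ((i : Fin s) → i < j → A) → A → Prop)
    (h : ∀ j g, ∃ a, R j g a) : ∃ f : Fin s → A, ∀ j, R j (fun i _ => f i) (f j) := by
  classical
  let F : (j : Fin s) → ((i : Fin s) → i < j → A) → A := fun j g => Classical.choose (h j g)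
  refine ⟨WellFounded.fix (wellFounded_lt) F, fun j => ?_⟩
  have hfix : WellFounded.fix (wellFounded_lt) F j
      = F j (fun i _ => WellFounded.fix (wellFounded_lt) F i) := WellFounded.fix_eq _ _ _
  conv => arg 3; rw [hfix]
  exact Classical.choose_spec (h j _)

/-- Cleaning all gates, from the inputs to the output. -/
theorem clean_all {A : Type*} [Fintype A] [DecidableEq A] {s : ℕ} (v : Fin s → A → Prop)
    [∀ j, DecidablePred (v j)] (Good : Finset A → Prop) (ε : ℕ)
    (hclean : ∀ X : Finset A, ∃ X' ⊆ X, (X \ X').card ≤ ε ∧ Good X') :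
    ∃ X' : Fin s → Finset A, (∀ j, ∀ x ∈ X' j, v j x) ∧ (∀ j, Good (X' j)) ∧
      (∀ i j, i < j → ∀ x ∈ X' j, v i x → x ∈ X' i) ∧
      ∀ j, ((univ.filter (v j)) \ X' j).card ≤ s * ε := by
  classical
  obtain ⟨f, hf⟩ := exists_rec (s := s) (A := Finset A)
    (fun j g a => a ⊆ univ.filter (fun x => v j x ∧ ∀ i (hi : i < j), v i x → x ∈ g i hi) ∧
      ((univ.filter (fun x => v j x ∧ ∀ i (hi : i < j), v i x → x ∈ g i hi)) \ a).card ≤ ε ∧
      Good a) (by
    intro j g
    obtain ⟨a, h1, h2, h3⟩ := hclean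
      (univ.filter (fun x => v j x ∧ ∀ i (hi : i < j), v i x → x ∈ g i hi))
    exact ⟨a, h1, h2, h3⟩)
  refine ⟨f, ?_, fun j => (hf j).2.2, ?_, ?_⟩
  · intro j x hx
    exact ((mem_filter.1 ((hf j).1 hx)).2).1
  · intro i j hij x hx hv
    exact ((mem_filter.1 ((hf j).1 hx)).2).2 i hij hv
  · intro j
    have hsub : (univ.filter (v j)) \ f j ⊆ univ.biUnion (fun i : Fin s =>
        (univ.filter (fun x => v i x ∧ ∀ i' (_ : i' < i), v i' x → x ∈ f i')) \ f i) := by
      intro x hx
      rw [mem_sdiff, mem_filter] at hx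
      have hn : (univ.filter (fun i : Fin s => v i x ∧ x ∉ f i)).Nonempty :=
        ⟨j, mem_filter.2 ⟨mem_univ _, hx.1.2, hx.2⟩⟩
      obtain ⟨i, hi, hmin⟩ := exists_min_image _ (fun i : Fin s => (i : ℕ)) hn
      rw [mem_filter] at hi
      rw [mem_biUnion]
      refine ⟨i, mem_univ _, ?_⟩
      rw [mem_sdiff, mem_filter]
      refine ⟨⟨mem_univ _, hi.2.1, fun i' hi' hv => ?_⟩, hi.2.2⟩
      by_contra hc
      have h1 := hmin i' (mem_filter.2 ⟨mem_univ _, hv, hc⟩)
      have h2 : (i' : ℕ) < i := hi'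
      omega
    refine (card_le_card hsub).trans (card_biUnion_le.trans ?_)
    refine (sum_le_sum fun i _ => (hf i).2.1).trans (le_of_eq ?_)
    rw [sum_const, card_univ, Fintype.card_fin, smul_eq_mul]

section walk

variable {T k m s : ℕ} [NeZero k] (L : Finset (Fin T))

/-- The state of the walk. -/
def State (d r : ℕ) (X : Finset (Nd L k → Fin m)) (Y : Finset (Nd L k × Fin m → Bool))
    (h : ℕ) : Prop :=
  ∃ (p : ℕ → ZMod k) (I : Finset (Nd L k)) (P : Finset (Nd L k → Fin m)) (x0 : Nd L k → Fin m)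
    (y0 : Nd L k × Fin m → Bool), IsPath fC gC L.card p ∧ I.card ≤ d ∧ P ⊆ X ∧ x0 ∈ P ∧
    (∀ x ∈ P, ∀ v ∈ I, x v = x0 v) ∧ Dense r I P ∧ y0 ∈ Y ∧
    (∀ v ∈ I, y0 (v, x0 v) = !(decide (On p v))) ∧ (∀ v ∈ I, On p v → h ≤ (v.1 : ℕ))

theorem step {d r p' : ℕ} (hp' : 1 ≤ p') (hr0 : 0 < r) (hk : 2 * d + 1 ≤ k)
    (hr : 10 * p' * d ≤ r) {X' : Finset (Nd L k → Fin m)} {Y' : Finset (Nd L k × Fin m → Bool)}
    (hX' : Decomp r d X') {p : ℕ → ZMod k} {I : Finset (Nd L k)} {P Q : Finset (Nd L k → Fin m)}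
    {x0 : Nd L k → Fin m} (hp : IsPath fC gC L.card p) (hI : I.card ≤ d)
    (hPI : ∀ x ∈ P, ∀ v ∈ I, x v = x0 v) (hd : Dense r I P) (hQP : Q ⊆ P) (hQX : Q ⊆ X')
    (hQ : P.card ≤ 2 * Q.card) (hQn : Q.Nonempty)
    {Yc : Finset (Nd L k × Fin m → Bool)} (hYc : Yc ⊆ Y')
    (hYI : ∀ y ∈ Yc, ∀ v ∈ I, y (v, x0 v) = !(decide (On p v)))
    (hYcard : 2 ^ (Fintype.card (Nd L k) * m) < Yc.card * 2 ^ p')
    {h : ℕ} (hhL : h ≤ L.card) (hh : (2 * d + 1) * (2 * d) ≤ h)
    (hhI : ∀ v ∈ I, On p v → h ≤ (v.1 : ℕ)) :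
    State L d r X' Y' (h - (2 * d) * (2 * d)) := by
  classical
  have hre : ∀ x : Nd L k → Fin m, ∃ (Ix : Finset (Nd L k)) (Px : Finset (Nd L k → Fin m))
      (q : ℕ → ZMod k), x ∈ Q → (Ix.card ≤ d ∧ Px ⊆ X' ∧ x ∈ Px ∧
      (∀ x' ∈ Px, ∀ v ∈ Ix, x' v = x v) ∧ Dense r Ix Px ∧
      IsPath fC gC L.card q ∧ (∀ v ∈ I, (On q v ↔ On p v)) ∧
      ∀ v ∈ I ∪ Ix, On q v → h - (2 * d) * (2 * d) ≤ (v.1 : ℕ)) := by
    intro x
    by_cases hx : x ∈ Q
    · obtain ⟨Ix, Px, h1, h2, h3, h4, h5⟩ := hX' x (hQX hx)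
      obtain ⟨q, hq1, hq2, hq3⟩ := reroute (g := 2 * d) hk hp hhL hh
        (subset_union_left (s₁ := I) (s₂ := Ix))
        ((card_union_le _ _).trans (by omega)) hhI
      exact ⟨Ix, Px, q, fun _ => ⟨h1, h2, h3, h4, h5, hq1, hq2, hq3⟩⟩
    · exact ⟨∅, ∅, p, fun h => absurd h hx⟩
  choose Ix Px q hxx using hre
  have hcore := core hp' hr0 hQP hQ hQn hd (J := fun x => Ix x \ I)
    (fun x _ => sdiff_disjoint) (d := d)
    (fun x hx => (card_le_card sdiff_subset).trans (hxx x hx).1)
    (fun x v => !(decide (On (q x) v))) hr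
  have hex : ∃ y ∈ Yc, ∃ x ∈ Q, ∀ v ∈ Ix x \ I, y (v, x v) = !(decide (On (q x) v)) := by
    by_contra hcon
    push Not at hcon
    have h1 : Yc ⊆ univ.filter (fun y : Nd L k × Fin m → Bool =>
        ∀ x ∈ Q, ∃ v ∈ Ix x \ I, y (v, x v) ≠ !(decide (On (q x) v))) := by
      intro y hy
      exact mem_filter.2 ⟨mem_univ _, hcon y hy⟩
    have h2 := Nat.mul_le_mul_right (2 ^ p') (card_le_card h1)
    exact absurd (h2.trans hcore) (not_le.2 hYcard)
  obtain ⟨y, hy, x, hx, hyx⟩ := hex
  obtain ⟨h1, h2, h3, h4, h5, h6, h7, h8⟩ := hxx x hx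
  refine ⟨q x, Ix x, Px x, x, y, h6, h1, h2, h3, h4, h5, hYc hy, ?_, ?_⟩
  · intro v hv
    by_cases hvI : v ∈ I
    · rw [hPI x (hQP hx) v hvI, hYI y hy v hvI]
      congr 1
      exact decide_eq_decide.2 (h7 v hvI).symm
    · exact hyx v (mem_sdiff.2 ⟨hv, hvI⟩)
  · intro v hv hon
    exact h8 v (mem_union_right _ hv) hon

theorem state_leaf {d r : ℕ} (hr2 : 2 ≤ r)
    {X : Finset (Nd L k → Fin m)} {Y : Finset (Nd L k × Fin m → Bool)} {h : ℕ}
    (hS : State L d r X Y h) (e : Rule T k m) (hX : ∀ x ∈ X, alp fC gC L x e = true)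
    (hY : ∀ y ∈ Y, bet fC gC L y e = false) : h = 0 := by
  obtain ⟨p, I, P, x0, y0, hp, hI, hPX, hx0, hPI, hd, hy0, hyI, hhI⟩ := hS
  exact leaf L hr2 hp hx0 hd hyI hhI e (fun x hx => hX x (hPX hx)) (hY y0 hy0)

end walk

/-- The lower bound for the depth. -/
theorem lower_bound {T k m s d r c D : ℕ} [NeZero k] (L : Finset (Fin T))
    (C : Circ (Rule T k m) s) (hneg : C.NegOutside {e | e.1 ∈ L}) (o : Fin s)
    (hC : ∀ e, C.val e o = PS fC gC e) (hk : 2 * d + 1 ≤ k) (hc : 0 < c) (hm : c * r ≤ m) (hr2 : 2 ≤ r)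
    (hd1 : 1 ≤ d) (hr : 10 * (D + 2) * d ≤ r) (hs : 2 * s ≤ c ^ (d + 1))
    (hD : 2 * s * (2 * ((L.card + 1) * k * m) + 1) ^ d ≤ 2 ^ D) :
    L.card ≤ (C.depth o + 1) * ((2 * d + 1) * (2 * d)) := by
  classical
  by_cases hL : L.card = 0
  · rw [hL]; exact Nat.zero_le _
  set N := Fintype.card (Nd L k) with hN
  have hNc : N = (L.card + 1) * k := by
    rw [hN, Fintype.card_prod, Fintype.card_fin, ZMod.card]
  have hN1 : 1 ≤ N := by
    rw [hNc]
    exact Nat.mul_pos (Nat.succ_pos _) (Nat.pos_of_ne_zero (NeZero.ne k))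
  have hr0 : 0 < r := by omega
  have hDr : D + 2 ≤ r := by
    have h1 : (D + 2) * 1 ≤ (D + 2) * (10 * d) := Nat.mul_le_mul_left _ (by omega)
    have h2 : 10 * (D + 2) * d = (D + 2) * (10 * d) := by ring
    omega
  have hm1 : r ≤ m := (Nat.le_mul_of_pos_left r hc).trans hm
  have hDM : D + 2 ≤ N * m := by
    have h1 : m ≤ N * m := Nat.le_mul_of_pos_left m (by omega)
    omega
  have hm0 : 0 < m := by omega
  -- rows
  have hrows := clean_all (A := Nd L k → Fin m) (s := s)
    (fun j x => C.val (alp fC gC L x) j = true) (Decomp r d) (m ^ N / c ^ (d + 1)) (by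
    intro X
    obtain ⟨X', h1, h2, h3⟩ := clean_rows (r := r) d hr0 hc hm X
    exact ⟨X', h1, (Nat.le_div_iff_mul_le (pow_pos hc _)).2 h2, h3⟩)
  obtain ⟨X', hXv, hXg, hXc, hXe⟩ := hrows
  -- columns
  set Pats : Finset (Finset ((Nd L k × Fin m) × Bool)) := univ.filter (fun π => π.card ≤ d)
    with hPats
  set θ : ℕ := 2 ^ (N * m - D) with hθ
  have hcols := clean_all (A := Nd L k × Fin m → Bool) (s := s)
    (fun j y => C.val (bet fC gC L y) j = false)
    (fun Y => ∀ π ∈ Pats, ∀ y ∈ Y, Mt π y → θ ≤ (Y.filter (fun y => Mt π y)).card)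
    (Pats.card * θ) (fun Y => clean_cols Y Pats θ)
  obtain ⟨Y', hYv, hYg, hYc, hYe⟩ := hcols
  have hPc : Pats.card ≤ (2 * ((L.card + 1) * k * m) + 1) ^ d := by
    refine (card_small_sets _ d).trans (Nat.pow_le_pow_left ?_ _)
    rw [Fintype.card_prod, Fintype.card_prod, Fintype.card_bool, Fintype.card_fin, ← hN, hNc]
    omega
  -- the walk
  have hwalk : ∀ (n : ℕ) (j : Fin s), (j : ℕ) = n → ∀ h, h ≤ L.card →
      State L d r (X' j) (Y' j) h → h ≤ C.depth j * ((2 * d + 1) * (2 * d)) := by
    intro n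
    induction' n using Nat.strong_induction_on with n ih
    intro j hjn h hhL hS
    -- going to a child
    have child : ∀ a : Fin (j : ℕ), (2 * d + 1) * (2 * d) ≤ h →
        State L d r (X' (up j a)) (Y' (up j a)) (h - (2 * d) * (2 * d)) →
        h ≤ (C.depth (up j a) + 1) * ((2 * d + 1) * (2 * d)) := by
      intro a hh hS'
      have h1 := ih (up j a : ℕ) (by rw [← hjn]; exact a.2) (up j a) rfl _ (by omega) hS'
      have h2 : (2 * d) * (2 * d) ≤ (2 * d + 1) * (2 * d) := Nat.mul_le_mul_right _ (by omega)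
      rw [add_mul, one_mul]
      omega
    by_cases hh : (2 * d + 1) * (2 * d) ≤ h
    swap
    · -- small horizon
      by_cases hdep : C.depth j = 0
      · -- an input or a constant
        have h0 : h = 0 := by
          obtain ⟨p, I, P, x0, y0, hp, hI, hPX, hx0, hPI, hd, hy0, hyI, hhI⟩ := id hS
          have hx := hXv j x0 (hPX hx0)
          have hy := hYv j y0 hy0
          rw [Circ.val] at hx hy
          rw [Circ.depth] at hdep
          rcases hg : C.gate j with e | b | a | ⟨a, b⟩ | ⟨a, b⟩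
          · refine state_leaf L hr2 hS e (fun x hx => ?_) (fun y hy => ?_)
            · have := hXv j x hx
              rw [Circ.val, hg] at this
              exact this
            · have := hYv j y hy
              rw [Circ.val, hg] at this
              exact this
          · rw [hg] at hx hy
            simp only at hx hy
            rw [hx] at hy
            exact absurd hy (by simp)
          · rw [hg] at hdep; simp at hdep
          · rw [hg] at hdep; simp at hdep
          · rw [hg] at hdep; simp at hdep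
        rw [h0]; exact Nat.zero_le _
      · have h1 : 1 * ((2 * d + 1) * (2 * d)) ≤ C.depth j * ((2 * d + 1) * (2 * d)) :=
          Nat.mul_le_mul_right _ (by omega)
        omega
    obtain ⟨p, I, P, x0, y0, hp, hI, hPX, hx0, hPI, hd, hy0, hyI, hhI⟩ := id hS
    -- the columns of the state
    set Ya := (Y' j).filter (fun y => ∀ v ∈ I, y (v, x0 v) = !(decide (On p v))) with hYa
    have hYaθ : θ ≤ Ya.card := by
      set π : Finset ((Nd L k × Fin m) × Bool) := I.image (fun v => ((v, x0 v), !(decide (On p v))))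
        with hπ
      have h1 : π ∈ Pats := by
        rw [hPats, mem_filter]
        exact ⟨mem_univ _, card_image_le.trans hI⟩
      have h2 : ∀ y : Nd L k × Fin m → Bool,
          Mt π y ↔ ∀ v ∈ I, y (v, x0 v) = !(decide (On p v)) := by
        intro y
        unfold Mt
        rw [hπ]
        constructor
        · intro h v hv
          exact h ((v, x0 v), !(decide (On p v))) (mem_image_of_mem _ hv)
        · intro h q hq
          rw [mem_image] at hq
          obtain ⟨v, hv, rfl⟩ := hq
          exact h v hv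
      have h3 := hYg j π h1 y0 hy0 ((h2 y0).2 hyI)
      refine h3.trans (card_le_card fun y hy => ?_)
      rw [mem_filter] at hy
      exact mem_filter.2 ⟨hy.1, (h2 y).1 hy.2⟩
    have hYaj : Ya ⊆ Y' j := filter_subset _ _
    have hYaI : ∀ y ∈ Ya, ∀ v ∈ I, y (v, x0 v) = !(decide (On p v)) :=
      fun y hy => (mem_filter.1 hy).2
    have hPpos : 0 < P.card := card_pos.2 ⟨x0, hx0⟩
    -- the general step
    have go : ∀ (a : Fin (j : ℕ)) (Q : Finset (Nd L k → Fin m))
        (Yc : Finset (Nd L k × Fin m → Bool)), Q ⊆ P → (∀ x ∈ Q, C.val (alp fC gC L x) (up j a) = true) →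
        P.card ≤ 2 * Q.card → Yc ⊆ Ya → (∀ y ∈ Yc, C.val (bet fC gC L y) (up j a) = false) →
        Ya.card ≤ 2 * Yc.card →
        State L d r (X' (up j a)) (Y' (up j a)) (h - (2 * d) * (2 * d)) := by
      intro a Q Yc hQP hQv hQc hYcY hYcv hYcc
      have hlt : up j a < j := a.2
      refine step L (p' := D + 2) (Yc := Yc) (by omega) hr0 hk hr (hXg _) hp hI hPI hd hQP ?_ hQc
        ?_ ?_ ?_ ?_ hhL hh hhI
      · intro x hx
        exact hXc (up j a) j hlt x (hPX (hQP hx)) (hQv x hx)
      · rw [← card_pos]; omega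
      · intro y hy
        exact hYc (up j a) j hlt y (hYaj (hYcY hy)) (hYcv y hy)
      · intro y hy
        exact hYaI y (hYcY hy)
      · have h1 : θ ≤ 2 * Yc.card := hYaθ.trans hYcc
        have h2 : Yc.card * 2 ^ (D + 2) = 2 * Yc.card * 2 ^ (D + 1) := by ring
        rw [h2]
        refine lt_of_lt_of_le ?_ (Nat.mul_le_mul_right _ h1)
        rw [hθ, ← pow_add, ← hN]
        exact Nat.pow_lt_pow_right (by norm_num) (by omega)
    rcases hg : C.gate j with e | b | a | ⟨a, b⟩ | ⟨a, b⟩
    · have h0 := state_leaf L hr2 hS e (fun x hx => by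
          have := hXv j x hx
          rw [Circ.val, hg] at this
          exact this) (fun y hy => by
          have := hYv j y hy
          rw [Circ.val, hg] at this
          exact this)
      rw [h0]; exact Nat.zero_le _
    · exfalso
      have hx := hXv j x0 (hPX hx0)
      have hy := hYv j y0 hy0
      rw [Circ.val, hg] at hx hy
      simp only at hx hy
      rw [hx] at hy
      exact absurd hy (by simp)
    · exfalso
      have hx := hXv j x0 (hPX hx0)
      have hy := hYv j y0 hy0
      rw [Circ.val, hg] at hx hy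
      simp only at hx hy
      have h1 := hneg j a hg (alp fC gC L x0) (bet fC gC L y0) (fun e he => alp_outside L he x0 y0)
      rw [h1, hy] at hx
      exact absurd hx (by simp)
    · -- AND
      have hdep : C.depth j = max (C.depth (up j a)) (C.depth (up j b)) + 1 := by
        rw [Circ.depth, hg]
      have hval : ∀ e, C.val e j = (C.val e (up j a) && C.val e (up j b)) := by
        intro e; rw [Circ.val, hg]
      have hPa : ∀ x ∈ P, C.val (alp fC gC L x) (up j a) = true ∧ C.val (alp fC gC L x) (up j b) = true := by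
        intro x hx
        have := hXv j x (hPX hx)
        rw [hval, Bool.and_eq_true] at this
        exact this
      have hYab : ∀ y ∈ Ya, C.val (bet fC gC L y) (up j a) = false ∨ C.val (bet fC gC L y) (up j b) = false := by
        intro y hy
        have := hYv j y (hYaj hy)
        rw [hval, Bool.and_eq_false_iff] at this
        exact this
      rw [hdep]
      rcases half_or Ya _ _ hYab with h1 | h1
      · refine (child a hh (go a P _ (Subset.refl _) (fun x hx => (hPa x hx).1) (by omega)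
          (filter_subset _ _) (fun y hy => (mem_filter.1 hy).2) h1)).trans ?_
        exact Nat.mul_le_mul_right _ (by omega)
      · refine (child b hh (go b P _ (Subset.refl _) (fun x hx => (hPa x hx).2) (by omega)
          (filter_subset _ _) (fun y hy => (mem_filter.1 hy).2) h1)).trans ?_
        exact Nat.mul_le_mul_right _ (by omega)
    · -- OR
      have hdep : C.depth j = max (C.depth (up j a)) (C.depth (up j b)) + 1 := by
        rw [Circ.depth, hg]
      have hval : ∀ e, C.val e j = (C.val e (up j a) || C.val e (up j b)) := by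
        intro e; rw [Circ.val, hg]
      have hPa : ∀ x ∈ P, C.val (alp fC gC L x) (up j a) = true ∨ C.val (alp fC gC L x) (up j b) = true := by
        intro x hx
        have := hXv j x (hPX hx)
        rw [hval, Bool.or_eq_true] at this
        exact this
      have hYab : ∀ y ∈ Ya, C.val (bet fC gC L y) (up j a) = false ∧ C.val (bet fC gC L y) (up j b) = false := by
        intro y hy
        have := hYv j y (hYaj hy)
        rw [hval, Bool.or_eq_false_iff] at this
        exact this
      rw [hdep]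
      rcases half_or P _ _ hPa with h1 | h1
      · refine (child a hh (go a _ Ya (filter_subset _ _) (fun x hx => (mem_filter.1 hx).2) h1
          (Subset.refl _) (fun y hy => (hYab y hy).1) (by omega))).trans ?_
        exact Nat.mul_le_mul_right _ (by omega)
      · refine (child b hh (go b _ Ya (filter_subset _ _) (fun x hx => (mem_filter.1 hx).2) h1
          (Subset.refl _) (fun y hy => (hYab y hy).2) (by omega))).trans ?_
        exact Nat.mul_le_mul_right _ (by omega)
  -- the output gate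
  by_cases hbig : (2 * d + 1) * (2 * d) ≤ L.card
  swap
  · rw [not_le] at hbig
    rw [add_mul, one_mul]
    omega
  have hXo : m ^ N ≤ 2 * (X' o).card := by
    have h1 := hXe o
    have h2 : univ.filter (fun x : Nd L k → Fin m => C.val (alp fC gC L x) o = true) = univ := by
      refine filter_true_of_mem fun x _ => ?_
      rw [hC, PS_alp L fun _ _ _ => rfl]
    rw [h2, card_sdiff_of_subset (subset_univ _), card_univ, Fintype.card_fun,
      Fintype.card_fin, ← hN] at h1
    have h3 : s * (m ^ N / c ^ (d + 1)) * 2 ≤ m ^ N := by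
      calc s * (m ^ N / c ^ (d + 1)) * 2 = (2 * s) * (m ^ N / c ^ (d + 1)) := by ring
        _ ≤ c ^ (d + 1) * (m ^ N / c ^ (d + 1)) := Nat.mul_le_mul_right _ hs
        _ ≤ m ^ N := Nat.mul_div_le _ _
    omega
  have hYo : 2 ^ (N * m) ≤ 2 * (Y' o).card := by
    have h1 := hYe o
    have h2 : univ.filter (fun y : Nd L k × Fin m → Bool => C.val (bet fC gC L y) o = false) = univ := by
      refine filter_true_of_mem fun x _ => ?_
      rw [hC, PS_bet L (fun _ _ _ => rfl) hL]
    rw [h2, card_sdiff_of_subset (subset_univ _), card_univ, Fintype.card_fun,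
      Fintype.card_prod, Fintype.card_fin, Fintype.card_bool, ← hN] at h1
    have h3 : s * (Pats.card * θ) * 2 ≤ 2 ^ (N * m) := by
      calc s * (Pats.card * θ) * 2 = (2 * s * Pats.card) * θ := by ring
        _ ≤ 2 ^ D * θ := by
            refine Nat.mul_le_mul_right _ ((Nat.mul_le_mul_left _ hPc).trans hD)
        _ = 2 ^ (N * m) := by rw [hθ, ← pow_add]; congr 1; omega
    omega
  have hroot : State L d r (X' o) (Y' o) (L.card - (2 * d) * (2 * d)) := by
    have hpath : IsPath fC gC L.card (fun _ => (0 : ZMod k)) := ⟨rfl, fun t _ => Or.inl rfl⟩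
    refine step L (p' := D + 2) (by omega) hr0 hk hr (hXg o) (P := univ) (Q := X' o) (I := ∅)
      (x0 := fun _ => ⟨0, hm0⟩) hpath (by simp) (by simp) ?_ (subset_univ _) (Subset.refl _)
      ?_ ?_ (Subset.refl _) (by simp) ?_ le_rfl hbig (by simp)
    · intro S _ a
      rw [card_agree_le, card_univ, Fintype.card_fun, Fintype.card_fin]
      have h1 : S.card ≤ Fintype.card (Nd L k) := card_le_univ S
      calc m ^ (Fintype.card (Nd L k) - S.card) * r ^ S.card
          ≤ m ^ (Fintype.card (Nd L k) - S.card) * m ^ S.card :=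
            Nat.mul_le_mul_left _ (Nat.pow_le_pow_left hm1 _)
        _ = m ^ Fintype.card (Nd L k) := by rw [← pow_add]; congr 1; omega
    · rw [card_univ, Fintype.card_fun, Fintype.card_fin, ← hN]
      exact hXo
    · rw [← card_pos]
      have : 0 < m ^ N := pow_pos hm0 _
      omega
    · rw [← hN]
      have h2 : (Y' o).card * 2 ^ (D + 2) = 2 * (Y' o).card * 2 ^ (D + 1) := by ring
      rw [h2]
      refine lt_of_lt_of_le ?_ (Nat.mul_le_mul_right _ hYo)
      rw [← pow_add]
      exact Nat.pow_lt_pow_right (by norm_num) (by omega)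
  have h1 := hwalk _ o rfl _ (Nat.sub_le _ _) hroot
  have h2 : (2 * d) * (2 * d) ≤ (2 * d + 1) * (2 * d) := Nat.mul_le_mul_right _ (by omega)
  rw [add_mul, one_mul]
  omega

end Pool.Agent.HM94.MSC
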