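import Pool.Agent.HM94.MSC.Maps

/-!
# A program of linear length which keeps only two layers
-/

set_option autoImplicit false

namespace Pool.Agent.HM94.MSC

open Finset

variable {T k m : ℕ} [NeZero k] (f g : ZMod k → ZMod k)

/-- The registers: two banks with a layer each, and two more. -/
abbrev RR (k m : ℕ) : Type := (Bool × ZMod k × Fin m) ⊕ Bool

abbrev tmp : RR k m := .inr false

abbrev out : RR k m := .inr true

/-- One rule. -/
def rulP (t : Fin T) (s : Bool) (i : ZMod k) (c : Fin m) (ab : Fin m × Fin m) :
    List (Instr (Rule T k m) (RR k m)) :=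
  [.inp tmp (t, i, ab.1, ab.2, c), .and tmp tmp (.inl (s, f i, ab.1)),
    .and tmp tmp (.inl (s, g i, ab.2)), .or (.inl (!s, i, c)) (.inl (!s, i, c)) tmp]

/-- One element. -/
noncomputable def eltP (t : Fin T) (s : Bool) (ic : ZMod k × Fin m) :
    List (Instr (Rule T k m) (RR k m)) :=
  .cst (.inl (!s, ic.1, ic.2)) false ::
    (univ : Finset (Fin m × Fin m)).toList.flatMap (rulP f g t s ic.1 ic.2)

/-- One layer. -/
noncomputable def layP (t : Fin T) (s : Bool) : List (Instr (Rule T k m) (RR k m)) :=
  (univ : Finset (ZMod k × Fin m)).toList.flatMap (eltP f g t s)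

/-- All layers. -/
noncomputable def allP : (t : ℕ) → t ≤ T → List (Instr (Rule T k m) (RR k m))
  | 0, _ => (univ : Finset (ZMod k × Fin m)).toList.map fun ic => .cst (.inl (false, ic.1, ic.2)) true
  | t + 1, h => allP t (Nat.le_of_succ_le h) ++ layP f g ⟨t, h⟩ (Nat.bodd t)

/-- The program. -/
noncomputable def theP : List (Instr (Rule T k m) (RR k m)) :=
  allP f g T le_rfl ++ .cst out false ::
    (univ : Finset (Fin m)).toList.map fun c => .or out out (.inl (Nat.bodd T, 0, c))

omit [NeZero k] in
theorem run_append (x : Rule T k m → Bool) (P Q : List (Instr (Rule T k m) (RR k m)))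
    (σ : RR k m → Bool) : run x (P ++ Q) σ = run x Q (run x P σ) := by
  unfold run; rw [List.foldl_append]

omit [NeZero k] in
theorem run_cons (x : Rule T k m → Bool) (I : Instr (Rule T k m) (RR k m))
    (Q : List (Instr (Rule T k m) (RR k m))) (σ : RR k m → Bool) :
    run x (I :: Q) σ = run x Q (Instr.step x σ I) := rfl

/-- The effect of the program for some of the rules of an element. -/
theorem rul_run (x : Rule T k m → Bool) (t : Fin T) (s : Bool) (i : ZMod k) (c : Fin m)
    (l : List (Fin m × Fin m)) (σ : RR k m → Bool) :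
    (∀ r : Bool × ZMod k × Fin m, r ≠ (!s, i, c) →
      run x (l.flatMap (rulP f g t s i c)) σ (.inl r) = σ (.inl r)) ∧
    run x (l.flatMap (rulP f g t s i c)) σ (.inl (!s, i, c)) =
      (σ (.inl (!s, i, c)) || l.any fun ab => x (t, i, ab.1, ab.2, c) && σ (.inl (s, f i, ab.1)) &&
        σ (.inl (s, g i, ab.2))) := by
  induction l generalizing σ with
  | nil =>
    refine ⟨fun r _ => rfl, ?_⟩
    simp [run]
  | cons ab l ih =>
    rw [List.flatMap_cons, run_append]
    have hne : ∀ (j : ZMod k) (a : Fin m), (s, j, a) ≠ (!s, i, c) := by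
      intro j a h
      have := (Prod.mk.inj h).1
      cases s <;> simp at this
    have h1 : ∀ r : Bool × ZMod k × Fin m, r ≠ (!s, i, c) →
        run x (rulP f g t s i c ab) σ (.inl r) = σ (.inl r) := by
      intro r hr
      unfold rulP run
      simp only [List.foldl_cons, List.foldl_nil, Instr.step]
      rw [Function.update_of_ne (by simpa using hr), Function.update_of_ne (by simp),
        Function.update_of_ne (by simp), Function.update_of_ne (by simp)]
    have h2 : run x (rulP f g t s i c ab) σ (.inl (!s, i, c)) =
        (σ (.inl (!s, i, c)) || (x (t, i, ab.1, ab.2, c) && σ (.inl (s, f i, ab.1)) &&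
        σ (.inl (s, g i, ab.2)))) := by
      unfold rulP run
      simp only [List.foldl_cons, List.foldl_nil, Instr.step]
      simp [Function.update_of_ne]
    obtain ⟨h3, h4⟩ := ih (run x (rulP f g t s i c ab) σ)
    refine ⟨fun r hr => (h3 r hr).trans (h1 r hr), ?_⟩
    rw [h4, h2, List.any_cons, Bool.or_assoc]
    congr 2
    refine congrArg (fun F => List.any l F) (funext fun ab' => ?_)
    rw [h1 _ (hne _ _), h1 _ (hne _ _)]

/-- The new value of an element. -/
def newv (x : Rule T k m → Bool) (t : Fin T) (s : Bool) (σ : RR k m → Bool) (i : ZMod k)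
    (c : Fin m) : Prop :=
  ∃ a b, x (t, i, a, b, c) = true ∧ σ (.inl (s, f i, a)) = true ∧ σ (.inl (s, g i, b)) = true

theorem elt_run (x : Rule T k m → Bool) (t : Fin T) (s : Bool) (ic : ZMod k × Fin m)
    (σ : RR k m → Bool) :
    (∀ r : Bool × ZMod k × Fin m, r ≠ (!s, ic.1, ic.2) →
      run x (eltP f g t s ic) σ (.inl r) = σ (.inl r)) ∧
    (run x (eltP f g t s ic) σ (.inl (!s, ic.1, ic.2)) = true ↔ newv f g x t s σ ic.1 ic.2) := by
  obtain ⟨i, c⟩ := ic
  unfold eltP
  rw [run_cons]
  have hne : ∀ (j : ZMod k) (a : Fin m), (s, j, a) ≠ (!s, i, c) := by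
    intro j a h
    have := (Prod.mk.inj h).1
    cases s <;> simp at this
  obtain ⟨h1, h2⟩ := rul_run f g x t s i c (univ : Finset (Fin m × Fin m)).toList
    (Instr.step x σ (.cst (.inl (!s, i, c)) false))
  have h0 : ∀ r : Bool × ZMod k × Fin m, r ≠ (!s, i, c) →
      Instr.step x σ (.cst (.inl (!s, i, c)) false) (.inl r) = σ (.inl r) := by
    intro r hr
    simp only [Instr.step]
    rw [Function.update_of_ne (by simpa using hr)]
  refine ⟨fun r hr => (h1 r hr).trans (h0 r hr), ?_⟩
  simp only
  rw [h2]
  have h3 : Instr.step x σ (.cst (.inl (!s, i, c)) false) (.inl (!s, i, c)) = false := by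
    simp [Instr.step]
  rw [h3, Bool.false_or, List.any_eq_true]
  unfold newv
  constructor
  · rintro ⟨ab, _, h4⟩
    rw [h0 _ (hne _ _), h0 _ (hne _ _), Bool.and_eq_true, Bool.and_eq_true] at h4
    exact ⟨ab.1, ab.2, h4.1.1, h4.1.2, h4.2⟩
  · rintro ⟨a, b, h4, h5, h6⟩
    refine ⟨(a, b), by simp, ?_⟩
    rw [h0 _ (hne _ _), h0 _ (hne _ _), h4, h5, h6]
    rfl

theorem lay_run (x : Rule T k m → Bool) (t : Fin T) (s : Bool) (l : List (ZMod k × Fin m))
    (σ : RR k m → Bool) :
    (∀ r : ZMod k × Fin m, run x (l.flatMap (eltP f g t s)) σ (.inl (s, r)) = σ (.inl (s, r))) ∧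
    (∀ r : ZMod k × Fin m, r ∉ l →
      run x (l.flatMap (eltP f g t s)) σ (.inl (!s, r)) = σ (.inl (!s, r))) ∧
    (∀ r : ZMod k × Fin m, r ∈ l →
      (run x (l.flatMap (eltP f g t s)) σ (.inl (!s, r)) = true ↔ newv f g x t s σ r.1 r.2)) := by
  induction l generalizing σ with
  | nil =>
    refine ⟨fun r => rfl, fun r _ => rfl, fun r hr => ?_⟩
    simp at hr
  | cons ic l ih =>
    rw [List.flatMap_cons, run_append]
    obtain ⟨h1, h2⟩ := elt_run f g x t s ic σ
    obtain ⟨h3, h4, h5⟩ := ih (run x (eltP f g t s ic) σ)
    have hs : ∀ r : ZMod k × Fin m, run x (eltP f g t s ic) σ (.inl (s, r)) = σ (.inl (s, r)) := by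
      intro r
      refine h1 _ ?_
      intro h
      have := (Prod.mk.inj h).1
      cases s <;> simp at this
    have hnew : ∀ i c, newv f g x t s (run x (eltP f g t s ic) σ) i c ↔ newv f g x t s σ i c := by
      intro i c
      unfold newv
      simp only [hs]
    refine ⟨fun r => (h3 r).trans (hs r), fun r hr => ?_, fun r hr => ?_⟩
    · rw [List.mem_cons, not_or] at hr
      rw [h4 r hr.2]
      refine h1 _ ?_
      intro h
      exact hr.1 (Prod.mk.inj h).2
    · by_cases hrl : r ∈ l
      · rw [h5 r hrl, hnew]
      · have hr' : r = ic := by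
          rcases List.mem_cons.1 hr with h | h
          · exact h
          · exact absurd h hrl
        subst hr'
        rw [h4 r hrl]
        exact h2

theorem all_run (x : Rule T k m → Bool) : ∀ (t : ℕ) (h : t ≤ T) (σ : RR k m → Bool) (i : ZMod k)
    (c : Fin m), run x (allP f g t h) σ (.inl (Nat.bodd t, i, c)) = true ↔ Reach f g x t i c := by
  intro t
  induction t with
  | zero =>
    intro h σ i c
    unfold allP Reach
    simp only [Nat.bodd_zero, iff_true]
    have key : ∀ (l : List (ZMod k × Fin m)) (σ : RR k m → Bool),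
        ((i, c) ∈ l ∨ σ (.inl (false, i, c)) = true) →
        run x (l.map fun ic => (Instr.cst (.inl (false, ic.1, ic.2)) true :
          Instr (Rule T k m) (RR k m))) σ (.inl (false, i, c)) = true := by
      intro l
      induction l with
      | nil =>
        intro σ h
        rcases h with h | h
        · simp at h
        · exact h
      | cons a l ih =>
        intro σ h
        rw [List.map_cons, run_cons]
        apply ih
        by_cases ha : (i, c) = a
        · right
          subst ha
          simp [Instr.step]
        · rcases h with h | h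
          · left
            rcases List.mem_cons.1 h with h1 | h1
            · exact absurd h1 ha
            · exact h1
          · right
            simp only [Instr.step]
            rw [Function.update_of_ne, h]
            intro h2
            injection h2 with h2
            apply ha
            have h3 := (Prod.mk.inj h2).2
            rw [h3]
    exact key _ σ (Or.inl (by simp))
  | succ t ih =>
    intro h σ i c
    unfold allP layP
    rw [run_append, Nat.bodd_succ]
    obtain ⟨_, _, h3⟩ := lay_run f g x ⟨t, h⟩ (Nat.bodd t) (univ : Finset (ZMod k × Fin m)).toList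
      (run x (allP f g t (Nat.le_of_succ_le h)) σ)
    rw [h3 (i, c) (by simp)]
    unfold newv Reach
    simp only [ih]
    constructor
    · rintro ⟨a, b, h1, h2, h4⟩
      exact ⟨h, a, b, h1, h2, h4⟩
    · rintro ⟨_, a, b, h1, h2, h4⟩
      exact ⟨a, b, h1, h2, h4⟩

theorem theP_exec (x : Rule T k m → Bool) : exec x (theP f g) out = PS f g x := by
  unfold exec theP
  rw [run_append, run_cons]
  set τ := run x (allP f g T le_rfl) (fun _ => false) with hτ
  have hreach : ∀ c, τ (.inl (Nat.bodd T, 0, c)) = true ↔ Reach f g x T 0 c := fun c =>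
    all_run f g x T le_rfl _ 0 c
  have key : ∀ (l : List (Fin m)) (σ : RR k m → Bool),
      (∀ c, σ (.inl (Nat.bodd T, 0, c)) = τ (.inl (Nat.bodd T, 0, c))) →
      (run x (l.map fun c => (Instr.or out out (.inl (Nat.bodd T, 0, c)) :
        Instr (Rule T k m) (RR k m))) σ out = true ↔
        σ out = true ∨ ∃ c ∈ l, τ (.inl (Nat.bodd T, 0, c)) = true) := by
    intro l
    induction l with
    | nil => intro σ _; simp [run]
    | cons c l ih =>
      intro σ hσ
      rw [List.map_cons, run_cons, ih]
      · simp only [Instr.step, Function.update_self, Bool.or_eq_true, hσ, List.mem_cons,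
          exists_eq_or_imp]
        tauto
      · intro c'
        simp only [Instr.step]
        rw [Function.update_of_ne (by simp)]
        exact hσ c'
  have h1 := key (univ : Finset (Fin m)).toList (Instr.step x τ (.cst out false)) (by
    intro c
    simp only [Instr.step]
    rw [Function.update_of_ne (by simp)])
  have h2 : Instr.step x τ (.cst out false) out = false := by simp [Instr.step]
  rw [h2] at h1
  rw [Bool.eq_iff_iff, h1]
  simp only [PS, decide_eq_true_eq]
  constructor
  · rintro (h | ⟨c, _, hc⟩)
    · simp at h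
    · exact ⟨c, (hreach c).1 hc⟩
  · rintro ⟨c, hc⟩
    exact Or.inr ⟨c, by simp, (hreach c).2 hc⟩

theorem layP_length (t : Fin T) (s : Bool) :
    (layP (m := m) f g t s).length = k * m * (1 + 4 * (m * m)) := by
  unfold layP
  rw [List.length_flatMap]
  have h1 : ∀ ic : ZMod k × Fin m, (eltP f g t s ic).length = 1 + 4 * (m * m) := by
    intro ic
    unfold eltP
    rw [List.length_cons, List.length_flatMap]
    have h2 : ∀ ab : Fin m × Fin m, (rulP f g t s ic.1 ic.2 ab).length = 4 := fun ab => rfl
    simp only [h2]
    simp
    ring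
  simp only [h1]
  simp

theorem allP_length : ∀ (t : ℕ) (h : t ≤ T),
    (allP (m := m) f g t h).length = k * m + t * (k * m * (1 + 4 * (m * m))) := by
  intro t
  induction t with
  | zero =>
    intro h
    unfold allP
    simp
  | succ t ih =>
    intro h
    unfold allP
    rw [List.length_append, ih, layP_length]
    ring

theorem theP_length : (theP f g : List (Instr (Rule T k m) (RR k m))).length
    = k * m + T * (k * m * (1 + 4 * (m * m))) + (1 + m) := by
  unfold theP
  rw [List.length_append, allP_length, List.length_cons]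
  simp
  ring

theorem theP_mono : MonoProg (theP f g : List (Instr (Rule T k m) (RR k m))) := by
  have hall : ∀ (t : ℕ) (h : t ≤ T) (q a : RR k m), Instr.neg q a ∉ allP f g t h := by
    intro t
    induction t with
    | zero =>
      intro h q a
      unfold allP
      simp
    | succ t ih =>
      intro h q a
      unfold allP layP eltP rulP
      rw [List.mem_append]
      rintro (h1 | h1)
      · exact ih _ q a h1
      · simp at h1
  intro q a
  unfold theP
  rw [List.mem_append]
  rintro (h1 | h1)
  · exact hall _ _ q a h1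
  · simp at h1

theorem card_RR : Fintype.card (RR k m) = 2 * (k * m) + 2 := by
  rw [Fintype.card_sum, Fintype.card_prod, Fintype.card_prod, Fintype.card_bool, ZMod.card,
    Fintype.card_fin]

end Pool.Agent.HM94.MSC
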