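import Pool.Agent.HM94.MSC.Family
import Pool.Agent.HM94.MSC.Lower
import Pool.Agent.HM94.MSC.ProgUp

/-!
# Thin systems: few registers, large depth
-/

set_option autoImplicit false

namespace Pool.Agent.HM94.MSC

open Finset

/-- The number of columns of the thin system. -/
def thinK (C n : ℕ) : ℕ := 2 * Nat.log 2 n ^ C + 1

/-- The number of elements of a node of the thin system. -/
def thinM (C n : ℕ) : ℕ := 4 * Nat.log 2 n ^ (2 * C + 2)

/-- The number of layers of the thin system. -/
def thinT (C n : ℕ) : ℕ :=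
  n / (thinK C n * (thinM C n * (thinM C n * thinM C n)))

instance (C n : ℕ) : NeZero (thinK C n) := ⟨by unfold thinK; omega⟩

theorem thin_le (C n : ℕ) :
    thinT C n * (thinK C n * (thinM C n * (thinM C n * thinM C n))) ≤ n :=
  Nat.div_mul_le_self _ _

/-- The thin system. -/
noncomputable def thin (C n : ℕ) : (Fin n → Bool) → Bool :=
  psFun (k := thinK C n) (m := thinM C n) (T := thinT C n) (fun i => i) (fun i => i + 1)
    (thin_le C n)

theorem thin_upper (C n : ℕ) : ∃ P : List (Instr (Fin n) (Fin (2 * (thinK C n * thinM C n) + 2))),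
    MonoProg P ∧ P.length = thinK C n * thinM C n +
      thinT C n * (thinK C n * thinM C n * (1 + 4 * (thinM C n * thinM C n))) + (1 + thinM C n) ∧
    ∃ o, ∀ x, exec x P o = thin C n x := by
  set ψ : RR (thinK C n) (thinM C n) ≃ Fin (2 * (thinK C n * thinM C n) + 2) :=
    Fintype.equivFinOfCardEq card_RR with hψ
  set φ : Rule (thinT C n) (thinK C n) (thinM C n) → Fin n ⊕ Bool :=
    fun e => .inl (bit (thin_le C n) e) with hφ
  refine ⟨(theP (fun i => i) (fun i => i + 1)).map (Instr.map φ ψ),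
    monoProg_map (theP_mono _ _) _ _, ?_, ψ out, ?_⟩
  · rw [List.length_map, theP_length]
  · intro x
    rw [exec_map φ ψ.injective, theP_exec]
    rfl

/-- The numerical part of the lower bound. -/
theorem thin_num {C n : ℕ} (hn : 17 ≤ Nat.log 2 n) (hT : 1 ≤ thinT C n)
    (L : Finset (Fin (thinT C n))) {s : ℕ} (hs : s ≤ 2 ^ (Nat.log 2 n ^ C))
    (Ci : Circ (Fin n) s) (hneg : Ci.NegOutside (bitsOf (k := thinK C n) (thin_le C n) L))
    (o : Fin s) (ho : ∀ x, Ci.val x o = thin C n x) :
    L.card ≤ (Ci.depth o + 1) *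
      ((2 * Nat.log 2 n ^ C + 1) * (2 * Nat.log 2 n ^ C)) := by
  set lam := Nat.log 2 n with hlam
  set d := lam ^ C with hd
  have hd1 : 1 ≤ d := Nat.one_le_pow _ _ (by omega)
  set r := lam ^ (2 * C + 2) with hr
  have hrd : r = lam ^ 2 * (d * d) := by
    rw [hr, hd, pow_add, ← pow_add]; ring
  have hm : thinM C n = 4 * r := by
    unfold thinM
    rw [← hlam]
  have hk : thinK C n = 2 * d + 1 := by unfold thinK; rw [← hlam]
  have hn0 : n ≠ 0 := by
    rintro rfl
    simp at hlam
    omega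
  have hnlt : n < 2 ^ (lam + 1) := Nat.lt_pow_succ_log_self (by norm_num) n
  have hr2 : 2 ≤ r := by
    rw [hrd]
    have h1 : 1 ≤ d * d := Nat.mul_pos hd1 hd1
    have h2 : 2 ≤ lam ^ 2 := by nlinarith
    calc 2 = 2 * 1 := rfl
      _ ≤ lam ^ 2 * (d * d) := Nat.mul_le_mul h2 h1
  have hLT : L.card ≤ thinT C n := (card_le_univ L).trans (by rw [Fintype.card_fin])
  have hlow := lower_bound (T := thinT C n) (k := thinK C n) (m := thinM C n) (d := d) (r := r)
    (c := 4) (D := (lam + 5) * d + 1) L (Ci.map (back (thin_le C n))) (neg_back _ L hneg) o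
    (fun e => by rw [Circ.map_val, ho]; exact psFun_back _ _ _ e) (by rw [hk]) (by norm_num)
    (by rw [hm]) hr2 hd1 ?_ ?_ ?_
  · rw [Circ.map_depth] at hlow
    exact hlow
  · -- 10 (D + 2) d ≤ r
    rw [hrd]
    have h1 : (lam + 5) * d + 1 + 2 ≤ (lam + 8) * d := by nlinarith
    have h2 : 10 * (lam + 8) ≤ lam ^ 2 := by nlinarith
    calc 10 * ((lam + 5) * d + 1 + 2) * d ≤ 10 * ((lam + 8) * d) * d :=
          Nat.mul_le_mul_right _ (Nat.mul_le_mul_left _ h1)
      _ = 10 * (lam + 8) * (d * d) := by ring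
      _ ≤ lam ^ 2 * (d * d) := Nat.mul_le_mul_right _ h2
  · -- 2 s ≤ 4 ^ (d + 1)
    calc 2 * s ≤ 2 * 2 ^ d := Nat.mul_le_mul_left _ hs
      _ = 2 ^ (d + 1) := by rw [pow_succ]; ring
      _ ≤ 4 ^ (d + 1) := Nat.pow_le_pow_left (by norm_num) _
  · have h1 : (L.card + 1) * thinK C n * thinM C n ≤ 2 ^ (lam + 2) := by
      have h2 : (L.card + 1) * thinK C n * thinM C n
          ≤ 2 * (thinT C n * (thinK C n * (thinM C n * (thinM C n * thinM C n)))) := by
        have h3 : 1 ≤ thinM C n * thinM C n := by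
          rw [hm]
          have : 0 < 4 * r := by omega
          exact Nat.mul_pos this this
        calc (L.card + 1) * thinK C n * thinM C n
            ≤ (2 * thinT C n) * thinK C n * thinM C n * 1 := by
              rw [mul_one]
              refine Nat.mul_le_mul_right _ (Nat.mul_le_mul_right _ (by omega))
          _ ≤ (2 * thinT C n) * thinK C n * thinM C n * (thinM C n * thinM C n) :=
              Nat.mul_le_mul_left _ h3
          _ = _ := by ring
      have h4 := thin_le C n
      have h5 : 2 ^ (lam + 2) = 2 * 2 ^ (lam + 1) := by rw [pow_succ]; ring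
      omega
    have h2 : 2 * ((L.card + 1) * thinK C n * thinM C n) + 1 ≤ 2 ^ (lam + 4) := by
      have h5 : 2 ^ (lam + 4) = 4 * 2 ^ (lam + 2) := by rw [pow_add, pow_add]; ring
      have h6 : 1 ≤ 2 ^ (lam + 2) := Nat.one_le_two_pow
      omega
    calc 2 * s * (2 * ((L.card + 1) * thinK C n * thinM C n) + 1) ^ d
        ≤ 2 * 2 ^ d * (2 ^ (lam + 4)) ^ d :=
          Nat.mul_le_mul (Nat.mul_le_mul_left _ hs) (Nat.pow_le_pow_left h2 _)
      _ = 2 ^ ((lam + 5) * d + 1) := by
          rw [← pow_mul, mul_assoc, ← pow_add, ← pow_succ']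
          congr 1; ring

end Pool.Agent.HM94.MSC
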