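import Pool.Agent.HM94.MSC.Hard

/-!
# Descending paths in the doubling wiring, and the adversary for batches of questions

The nodes are pairs `(t, i)`, `i ∈ ZMod (2 ^ κ)`; the node `(t + 1, i)` depends on `(t, 2 i)` and
`(t, 2 i + 1)`.
-/

set_option autoImplicit false

namespace Pool.Agent.HM94.MSC

open Finset

/-- The doubling wiring. -/
abbrev fD {k : ℕ} : ZMod k → ZMod k := fun i => 2 * i

/-- The doubling wiring. -/
abbrev gD {k : ℕ} : ZMod k → ZMod k := fun i => 2 * i + 1

section pot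

variable {k : ℕ}

/-- The total number of hits of the routes below `(h, i)`. -/
def HH (W : ℕ → ZMod k → ℕ) : ℕ → ZMod k → ℕ
  | 0, _ => 0
  | h + 1, i => (2 ^ h * W h (fD i) + HH W h (fD i)) + (2 ^ h * W h (gD i) + HH W h (gD i))

theorem HH_mono {W W' : ℕ → ZMod k → ℕ} {h : ℕ} (hW : ∀ t < h, ∀ i, W t i ≤ W' t i) (i : ZMod k) :
    HH W h i ≤ HH W' h i := by
  induction h generalizing i with
  | zero => exact le_rfl
  | succ h ih =>
    have h1 := ih fun t ht i => hW t (by omega) i
    unfold HH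
    refine Nat.add_le_add (Nat.add_le_add ?_ (h1 _)) (Nat.add_le_add ?_ (h1 _))
    · exact Nat.mul_le_mul_left _ (hW h (by omega) _)
    · exact Nat.mul_le_mul_left _ (hW h (by omega) _)

theorem HH_add (W W' : ℕ → ZMod k → ℕ) (h : ℕ) (i : ZMod k) :
    HH (fun t j => W t j + W' t j) h i = HH W h i + HH W' h i := by
  induction h generalizing i with
  | zero => rfl
  | succ h ih =>
    unfold HH
    rw [ih, ih]
    ring

theorem HH_zero (h : ℕ) (i : ZMod k) : HH (fun _ _ => 0) h i = 0 := by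
  induction h generalizing i with
  | zero => rfl
  | succ h ih => unfold HH; rw [ih, ih]; simp

/-- The greedy path. -/
theorem greedy (W : ℕ → ZMod k → ℕ) : ∀ (h : ℕ) (i : ZMod k), HH W h i < 2 ^ h →
    ∃ p : ℕ → ZMod k, p h = i ∧ (∀ t < h, p t = fD (p (t + 1)) ∨ p t = gD (p (t + 1))) ∧
      (∀ t < h, W t (p t) = 0) ∧ ∀ t ≤ h, HH W t (p t) * 2 ^ h ≤ HH W h i * 2 ^ t := by
  intro h
  induction h with
  | zero =>
    intro i _
    refine ⟨fun _ => i, rfl, fun t ht => absurd ht (Nat.not_lt_zero _),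
      fun t ht => absurd ht (Nat.not_lt_zero _), fun t ht => ?_⟩
    have : t = 0 := by omega
    subst this
    exact le_rfl
  | succ h ih =>
    intro i hi
    obtain ⟨j, hj, hjle⟩ : ∃ j, (j = fD i ∨ j = gD i) ∧
        2 * (2 ^ h * W h j + HH W h j) ≤ HH W (h + 1) i := by
      have h1 : HH W (h + 1) i
          = (2 ^ h * W h (fD i) + HH W h (fD i)) + (2 ^ h * W h (gD i) + HH W h (gD i)) := rfl
      rcases le_total (2 ^ h * W h (fD i) + HH W h (fD i)) (2 ^ h * W h (gD i) + HH W h (gD i))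
        with h2 | h2
      · exact ⟨fD i, Or.inl rfl, by omega⟩
      · exact ⟨gD i, Or.inr rfl, by omega⟩
    have hpow : 2 ^ (h + 1) = 2 * 2 ^ h := by ring
    have hW0 : W h j = 0 := by
      by_contra hne
      have h1 : 2 ^ h * 1 ≤ 2 ^ h * W h j := Nat.mul_le_mul_left _ (by omega)
      omega
    have hlt : HH W h j < 2 ^ h := by omega
    obtain ⟨p, hp1, hp2, hp3, hp4⟩ := ih j hlt
    have hne : ∀ t, t ≤ h → (if t = h + 1 then i else p t) = p t := by
      intro t ht
      rw [if_neg (by omega)]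
    refine ⟨fun t => if t = h + 1 then i else p t, by simp, ?_, ?_, ?_⟩
    · intro t ht
      simp only
      rw [hne t (by omega)]
      by_cases h1 : t = h
      · subst h1
        rw [if_pos rfl, hp1]
        exact hj
      · rw [hne (t + 1) (by omega)]
        exact hp2 t (by omega)
    · intro t ht
      simp only
      rw [hne t (by omega)]
      by_cases h1 : t = h
      · subst h1
        rw [hp1]; exact hW0
      · exact hp3 t (by omega)
    · intro t ht
      simp only
      by_cases h1 : t = h + 1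
      · subst h1
        rw [if_pos rfl]
      · rw [hne t (by omega)]
        have h2 := hp4 t (by omega)
        have h3 : 2 * HH W h j ≤ HH W (h + 1) i := by
          rw [hW0] at hjle; omega
        calc HH W t (p t) * 2 ^ (h + 1) = 2 * (HH W t (p t) * 2 ^ h) := by rw [hpow]; ring
          _ ≤ 2 * (HH W h j * 2 ^ t) := Nat.mul_le_mul_left _ h2
          _ = 2 * HH W h j * 2 ^ t := by ring
          _ ≤ HH W (h + 1) i * 2 ^ t := Nat.mul_le_mul_right _ h3

/-- The indicator function of a set of nodes. -/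
def WK (K : Finset (ℕ × ZMod k)) (t : ℕ) (i : ZMod k) : ℕ := if (t, i) ∈ K then 1 else 0

/-- The number of routes with `j` steps from `i` to `c`. -/
def NN (c : ZMod k) : ℕ → ZMod k → ℕ
  | 0, i => if i = c then 1 else 0
  | j + 1, i => NN c j (fD i) + NN c j (gD i)

theorem NN_eq (c : ZMod k) (j : ℕ) (i : ZMod k) :
    NN c j i = ((range (2 ^ j)).filter fun s : ℕ => 2 ^ j * i + (s : ZMod k) = c).card := by
  induction j generalizing i with
  | zero =>
    unfold NN
    split_ifs with h
    · simp [h, filter_singleton]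
    · simp [h, filter_singleton]
  | succ j ih =>
    unfold NN
    rw [ih, ih]
    have h1 : (range (2 ^ (j + 1))).filter (fun s : ℕ => 2 ^ (j + 1) * i + ((s : ℕ) : ZMod k) = c)
        = (range (2 ^ j)).filter (fun s : ℕ => 2 ^ j * fD i + ((s : ℕ) : ZMod k) = c) ∪
          ((range (2 ^ j)).filter (fun s : ℕ => 2 ^ j * gD i + ((s : ℕ) : ZMod k) = c)).map
            (addLeftEmbedding (2 ^ j)) := by
      ext s
      rw [mem_union, mem_map, mem_filter, mem_filter, mem_range, mem_range]
      simp only [mem_filter, mem_range, addLeftEmbedding_apply]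
      constructor
      · rintro ⟨h1, h2⟩
        rcases Nat.lt_or_ge s (2 ^ j) with h3 | h3
        · left
          refine ⟨h3, ?_⟩
          rw [← h2]
          ring
        · right
          refine ⟨s - 2 ^ j, ⟨by rw [pow_succ] at h1; omega, ?_⟩, by omega⟩
          rw [Nat.cast_sub h3, ← h2]
          push_cast
          ring
      · rintro (⟨h1, h2⟩ | ⟨a, ⟨h1, h2⟩, h3⟩)
        · refine ⟨by rw [pow_succ]; omega, ?_⟩
          rw [← h2]; ring
        · refine ⟨by rw [pow_succ]; omega, ?_⟩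
          rw [← h3, ← h2]
          push_cast
          ring
    rw [h1, card_union_of_disjoint, card_map]
    rw [disjoint_left]
    intro s hs hs'
    rw [mem_filter, mem_range] at hs
    rw [mem_map] at hs'
    obtain ⟨a, _, ha⟩ := hs'
    rw [addLeftEmbedding_apply] at ha
    omega

theorem HH_single (t0 : ℕ) (c : ZMod k) (h : ℕ) (ht : t0 < h) (i : ZMod k) :
    HH (WK {(t0, c)}) h i = 2 ^ t0 * NN c (h - t0) i := by
  induction h generalizing i with
  | zero => omega
  | succ h ih =>
    have hz : ∀ (h' : ℕ) (i : ZMod k), h' ≤ t0 → HH (WK {(t0, c)}) h' i = 0 := by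
      intro h' i hle
      have h1 := HH_mono (W := WK {(t0, c)}) (W' := fun _ _ => 0) (h := h') (by
        intro t ht' j
        unfold WK
        rw [if_neg]
        intro hmem
        rw [mem_singleton] at hmem
        have := (Prod.mk.inj hmem).1
        omega) i
      rw [HH_zero] at h1
      omega
    by_cases h1 : t0 = h
    · subst h1
      unfold HH
      rw [hz _ _ le_rfl, hz _ _ le_rfl]
      have h2 : t0 + 1 - t0 = 1 := by omega
      rw [h2]
      have h3 : ∀ j : ZMod k, WK {(t0, c)} t0 j = if j = c then 1 else 0 := by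
        intro j
        unfold WK
        simp
      rw [h3, h3]
      unfold NN NN
      ring
    · have h2 : t0 < h := by omega
      unfold HH
      rw [ih h2, ih h2]
      have h3 : ∀ j : ZMod k, WK {(t0, c)} h j = 0 := by
        intro j
        unfold WK
        rw [if_neg]
        intro hmem
        rw [mem_singleton] at hmem
        exact h1 (Prod.mk.inj hmem).1.symm
      rw [h3, h3]
      have h4 : h + 1 - t0 = (h - t0) + 1 := by omega
      rw [h4]
      conv_rhs => unfold NN
      ring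

end pot

theorem NN_le {κ : ℕ} (c : ZMod (2 ^ κ)) (j : ℕ) (i : ZMod (2 ^ κ)) : NN c j i ≤ 2 ^ (j - κ) := by
  rw [NN_eq]
  refine (card_le_card_of_injOn (fun s => s / 2 ^ κ) (t := range (2 ^ (j - κ))) ?_ ?_).trans
    (card_range _).le
  · intro s hs
    rw [coe_filter, Set.mem_ofPred_eq, mem_range] at hs
    rw [coe_range, Set.mem_Iio]
    refine (Nat.div_lt_iff_lt_mul (by positivity)).2 ?_
    rw [← pow_add]
    exact hs.1.trans_le (Nat.pow_le_pow_right (by norm_num) (by omega))
  · intro a ha b hb hab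
    rw [coe_filter, Set.mem_ofPred_eq, mem_range] at ha hb
    simp only at hab
    have h1 : (a : ZMod (2 ^ κ)) = (b : ZMod (2 ^ κ)) := by
      have := ha.2.trans hb.2.symm
      exact add_left_cancel this
    rw [ZMod.natCast_eq_natCast_iff'] at h1
    have h2 := Nat.div_add_mod a (2 ^ κ)
    have h3 := Nat.div_add_mod b (2 ^ κ)
    rw [← h2, ← h3, hab, h1]

/-- Few routes hit few low nodes. -/
theorem HH_card_le {κ q ℓ h : ℕ} (hκ : 8 * q ≤ 2 ^ κ) (hℓ : 8 * q ≤ 2 ^ ℓ) (hlh : ℓ ≤ h)
    (K : Finset (ℕ × ZMod (2 ^ κ))) (hK : ∀ v ∈ K, v.1 < h - ℓ) (i : ZMod (2 ^ κ)) :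
    8 * q * HH (WK K) h i ≤ K.card * 2 ^ h := by
  classical
  induction K using Finset.induction_on with
  | empty =>
    have h1 : HH (WK (∅ : Finset (ℕ × ZMod (2 ^ κ)))) h i ≤ HH (fun _ _ => 0) h i :=
      HH_mono (fun t _ j => by unfold WK; simp) i
    rw [HH_zero] at h1
    have : HH (WK (∅ : Finset (ℕ × ZMod (2 ^ κ)))) h i = 0 := by omega
    rw [this]; simp
  | insert v K hv ih =>
    rw [card_insert_of_notMem hv, add_mul, one_mul]
    have h1 : HH (WK (insert v K)) h i ≤ HH (WK K) h i + HH (WK {v}) h i := by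
      rw [← HH_add]
      refine HH_mono (fun t _ j => ?_) i
      unfold WK
      by_cases h2 : (t, j) ∈ insert v K
      · rcases mem_insert.1 h2 with h3 | h3
        · rw [if_pos h2, if_pos (mem_singleton.2 h3)]
          omega
        · rw [if_pos h2, if_pos h3]; omega
      · rw [if_neg h2]; exact Nat.zero_le _
    have h2 : 8 * q * HH (WK {v}) h i ≤ 2 ^ h := by
      have hvh := hK v (mem_insert_self _ _)
      obtain ⟨t0, c⟩ := v
      simp only at hvh
      rw [HH_single t0 c h (by omega) i]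
      have h3 := NN_le c (h - t0) i
      by_cases h4 : h - t0 ≤ κ
      · have h5 : h - t0 - κ = 0 := by omega
        rw [h5, pow_zero] at h3
        calc 8 * q * (2 ^ t0 * NN c (h - t0) i) ≤ 2 ^ ℓ * (2 ^ t0 * 1) := by
              exact Nat.mul_le_mul hℓ (Nat.mul_le_mul_left _ h3)
          _ = 2 ^ (ℓ + t0) := by rw [mul_one, pow_add]
          _ ≤ 2 ^ h := Nat.pow_le_pow_right (by norm_num) (by omega)
      · calc 8 * q * (2 ^ t0 * NN c (h - t0) i) ≤ 2 ^ κ * (2 ^ t0 * 2 ^ (h - t0 - κ)) := by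
              exact Nat.mul_le_mul hκ (Nat.mul_le_mul_left _ h3)
          _ = 2 ^ h := by rw [← pow_add, ← pow_add]; congr 1; omega
    calc 8 * q * HH (WK (insert v K)) h i ≤ 8 * q * (HH (WK K) h i + HH (WK {v}) h i) :=
          Nat.mul_le_mul_left _ h1
      _ = 8 * q * HH (WK K) h i + 8 * q * HH (WK {v}) h i := by ring
      _ ≤ K.card * 2 ^ h + 2 ^ h :=
          Nat.add_le_add (ih fun v hv => hK v (mem_insert_of_mem hv)) h2

/-- The nodes as pairs. -/
def pr {R k : ℕ} (K : Finset (Fin (R + 1) × ZMod k)) : Finset (ℕ × ZMod k) :=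
  K.image fun v => ((v.1 : ℕ), v.2)

theorem mem_pr {R k : ℕ} {K : Finset (Fin (R + 1) × ZMod k)} {v : Fin (R + 1) × ZMod k} :
    ((v.1 : ℕ), v.2) ∈ pr K ↔ v ∈ K := by
  unfold pr
  rw [mem_image]
  constructor
  · rintro ⟨w, hw, h⟩
    have h1 := Prod.mk.inj h
    have : w = v := Prod.ext (Fin.ext h1.1) h1.2
    rw [← this]; exact hw
  · intro h
    exact ⟨v, h, rfl⟩

/-- The adversary answers a batch of questions. -/
theorem reroute2 {κ q ℓ R : ℕ} (hκ : 8 * q ≤ 2 ^ κ) (hℓ : 8 * q ≤ 2 ^ ℓ) (hq : 1 ≤ q)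
    {p : ℕ → ZMod (2 ^ κ)} (hp : IsPath fD gD R p) {h : ℕ} (hR : h ≤ R) (hlh : ℓ ≤ h)
    {I J : Finset (Fin (R + 1) × ZMod (2 ^ κ))} (hIJ : Disjoint J I)
    (hc : I.card + J.card ≤ q)
    (hI : ∀ v ∈ I, On p v → h ≤ (v.1 : ℕ))
    (hpot : 8 * q * HH (WK (pr I)) h (p h) ≤ I.card * 2 ^ h) :
    ∃ p', IsPath fD gD R p' ∧ (∀ v ∈ I, (On p' v ↔ On p v)) ∧
      (∀ v ∈ I ∪ J, On p' v → h - ℓ ≤ (v.1 : ℕ)) ∧
      8 * q * HH (WK (pr (I ∪ J))) (h - ℓ) (p' (h - ℓ)) ≤ (I ∪ J).card * 2 ^ (h - ℓ) := by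
  classical
  set J' : Finset (ℕ × ZMod (2 ^ κ)) := (pr J).filter fun v => v.1 < h - ℓ with hJ'
  have hJ'c : J'.card ≤ J.card := (card_le_card (filter_subset _ _)).trans card_image_le
  set W : ℕ → ZMod (2 ^ κ) → ℕ := fun t i => WK (pr I) t i + WK J' t i with hW
  have hJpot := HH_card_le hκ hℓ hlh J' (fun v hv => (mem_filter.1 hv).2) (p h)
  have hWpot : 8 * q * HH W h (p h) ≤ (I.card + J.card) * 2 ^ h := by
    rw [hW, HH_add, mul_add, add_mul]
    exact Nat.add_le_add hpot (hJpot.trans (Nat.mul_le_mul_right _ hJ'c))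
  have hlt : HH W h (p h) < 2 ^ h := by
    by_contra hge
    rw [not_lt] at hge
    have h1 : 8 * q * 2 ^ h ≤ (I.card + J.card) * 2 ^ h :=
      (Nat.mul_le_mul_left _ hge).trans hWpot
    have h2 : 8 * q ≤ I.card + J.card := Nat.le_of_mul_le_mul_right h1 (by positivity)
    omega
  obtain ⟨p1, hp1, hp2, hp3, hp4⟩ := greedy W h (p h) hlt
  set p' : ℕ → ZMod (2 ^ κ) := fun t => if h ≤ t then p t else p1 t with hp'
  have ht : ∀ t, h ≤ t → p' t = p t := fun t ht => by rw [hp']; simp only; rw [if_pos ht]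
  have hb : ∀ t, t ≤ h → p' t = p1 t := by
    intro t ht'
    rcases Nat.lt_or_ge t h with h1 | h1
    · rw [hp']; simp only; rw [if_neg (by omega)]
    · have : t = h := by omega
      subst this
      rw [ht _ le_rfl, hp1]
  have hWz : ∀ t < h, WK (pr I) t (p1 t) = 0 ∧ WK J' t (p1 t) = 0 := by
    intro t ht'
    have := hp3 t ht'
    rw [hW] at this
    simp only at this
    omega
  have hIb : ∀ v ∈ I, On p' v → h ≤ (v.1 : ℕ) := by
    intro v hv hon
    by_contra hlt'
    rw [not_le] at hlt'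
    have h1 := (hWz _ hlt').1
    unfold On at hon
    rw [hb _ hlt'.le] at hon
    unfold WK at h1
    rw [← hon, if_pos (mem_pr.2 hv)] at h1
    omega
  refine ⟨p', ⟨?_, ?_⟩, ?_, ?_, ?_⟩
  · rw [ht _ hR]; exact hp.1
  · intro t htR
    rcases Nat.lt_or_ge t h with h1 | h1
    · rw [hb t h1.le, hb (t + 1) h1]
      exact hp2 t h1
    · rw [ht t h1, ht (t + 1) (by omega)]
      exact hp.2 t htR
  · intro v hv
    constructor
    · intro hon
      have h1 := hIb v hv hon
      unfold On at hon ⊢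
      rw [hon, ht _ h1]
    · intro hon
      have h1 := hI v hv hon
      unfold On at hon ⊢
      rw [hon, ht _ h1]
  · intro v hv hon
    rcases mem_union.1 hv with h1 | h1
    · exact (Nat.sub_le _ _).trans (hIb v h1 hon)
    · by_contra hlt'
      rw [not_le] at hlt'
      have hvh : (v.1 : ℕ) < h := by omega
      have h2 := (hWz _ hvh).2
      unfold On at hon
      rw [hb _ hvh.le] at hon
      unfold WK at h2
      rw [← hon, if_pos] at h2
      · omega
      · rw [hJ', mem_filter]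
        exact ⟨mem_pr.2 h1, hlt'⟩
  · have h1 : HH (WK (pr (I ∪ J))) (h - ℓ) (p' (h - ℓ)) ≤ HH W (h - ℓ) (p' (h - ℓ)) := by
      refine HH_mono (fun t ht' i => ?_) _
      rw [hW]
      simp only
      unfold WK
      by_cases h2 : (t, i) ∈ pr (I ∪ J)
      · rw [if_pos h2]
        unfold pr at h2
        rw [image_union, mem_union] at h2
        rcases h2 with h3 | h3
        · have : (t, i) ∈ pr I := h3
          rw [if_pos this]; omega
        · have h4 : (t, i) ∈ J' := by
            rw [hJ', mem_filter]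
            exact ⟨h3, ht'⟩
          rw [if_pos h4]; omega
      · rw [if_neg h2]; exact Nat.zero_le _
    have h2 := hp4 (h - ℓ) (Nat.sub_le _ _)
    rw [← hb _ (Nat.sub_le _ _)] at h2
    have h3 : (I ∪ J).card = I.card + J.card := card_union_of_disjoint hIJ.symm
    rw [h3]
    refine (Nat.mul_le_mul_left _ h1).trans ?_
    have h4 : 8 * q * HH W (h - ℓ) (p' (h - ℓ)) * 2 ^ h
        ≤ (I.card + J.card) * 2 ^ (h - ℓ) * 2 ^ h := by
      calc 8 * q * HH W (h - ℓ) (p' (h - ℓ)) * 2 ^ h
          = 8 * q * (HH W (h - ℓ) (p' (h - ℓ)) * 2 ^ h) := by ring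
        _ ≤ 8 * q * (HH W h (p h) * 2 ^ (h - ℓ)) := Nat.mul_le_mul_left _ h2
        _ = 8 * q * HH W h (p h) * 2 ^ (h - ℓ) := by ring
        _ ≤ (I.card + J.card) * 2 ^ h * 2 ^ (h - ℓ) := Nat.mul_le_mul_right _ hWpot
        _ = _ := by ring
    exact Nat.le_of_mul_le_mul_right h4 (by positivity)

end Pool.Agent.HM94.MSC
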