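import Pool.Agent.HM94.MSC.Leaf
import Pool.Agent.HM94.MSC.Walk
import Pool.Agent.HM94.MSC.Classes

/-!
# Short programs with few registers do not solve layered path systems with the doubling wiring
-/

set_option autoImplicit false

namespace Pool.Agent.HM94.MSC

open Finset

section prog

variable {ι Rg : Type} [DecidableEq Rg]

/-- Pointwise order of the contents. -/
def Le (σ τ : Rg → Bool) : Prop := ∀ q, σ q = true → τ q = true

theorem exec_take_succ (x : ι → Bool) (P : List (Instr ι Rg)) {n : ℕ} (h : n < P.length) :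
    exec x (P.take (n + 1)) = Instr.step x (exec x (P.take n)) P[n] := by
  unfold exec run
  rw [List.take_succ_eq_append_getElem h, List.foldl_append]
  rfl

theorem Le_update {σ τ : Rg → Bool} (h : Le σ τ) (q : Rg) {a b : Bool} (hab : a = true → b = true) :
    Le (Function.update σ q a) (Function.update τ q b) := by
  intro u hu
  by_cases hq : u = q
  · subst hq
    rw [Function.update_self] at hu ⊢
    exact hab hu
  · rw [Function.update_of_ne hq] at hu ⊢
    exact h u hu

/-- One instruction distinguishes two inputs only if it reads a distinguishing input. -/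
theorem step_read {P : List (Instr ι Rg)} {H : Set ι} (hneg : NegOutside P H) {n : ℕ}
    (hn : n < P.length) {x y : ι → Bool} (hxy : ∀ i, i ∉ H → x i = y i)
    (h1 : Le (exec x (P.take n)) (exec y (P.take n)))
    (h2 : ¬ Le (exec x (P.take (n + 1))) (exec y (P.take (n + 1)))) :
    ∃ q i, P[n] = Instr.inp q i ∧ x i = true ∧ y i = false := by
  rw [exec_take_succ x P hn, exec_take_succ y P hn] at h2
  rcases hg : P[n] with ⟨q, i⟩ | ⟨q, b⟩ | ⟨q, a⟩ | ⟨q, a, b⟩ | ⟨q, a, b⟩
  · refine ⟨q, i, rfl, ?_⟩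
    rw [hg] at h2
    by_contra hcon
    apply h2
    refine Le_update h1 q fun hx => ?_
    by_contra hy
    exact hcon ⟨hx, by simpa using hy⟩
  · exfalso
    rw [hg] at h2
    exact h2 (Le_update h1 q fun hb => hb)
  · exfalso
    rw [hg] at h2
    refine h2 (Le_update h1 q ?_)
    have hsplit : P = P.take n ++ Instr.neg q a :: P.drop (n + 1) := by
      rw [← hg, List.getElem_cons_drop hn, List.take_append_drop]
    have h3 := hneg _ _ q a hsplit x y hxy
    rw [h3]
    exact fun h => h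
  · exfalso
    rw [hg] at h2
    refine h2 (Le_update h1 q ?_)
    intro hab
    rw [Bool.and_eq_true] at hab ⊢
    exact ⟨h1 _ hab.1, h1 _ hab.2⟩
  · exfalso
    rw [hg] at h2
    refine h2 (Le_update h1 q ?_)
    intro hab
    rw [Bool.or_eq_true] at hab ⊢
    exact hab.imp (h1 _) (h1 _)

end prog

/-- The lower bound for the number of registers. -/
theorem width_lower {T κ m ρ q ℓ r : ℕ} {Rg : Type} [Fintype Rg] [DecidableEq Rg]
    (L : Finset (Fin T)) (hf : ∀ t, t ∉ L → ∀ i : ZMod (2 ^ κ), fD i = i)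
    (P : List (Instr (Rule T (2 ^ κ) m) Rg)) (hneg : NegOutside P {e | e.1 ∈ L}) (o : Rg)
    (hP : ∀ e, exec e P o = PS fD gD e) (hlen : P.length ≤ 2 ^ r)
    (hq : r * (Fintype.card Rg + 1) ≤ q) (hq1 : 1 ≤ q) (hκ : 8 * q ≤ 2 ^ κ) (hℓ : 8 * q ≤ 2 ^ ℓ)
    (hρ : 40 * (q + 3 * r + 2) * q ≤ ρ) (hm : 2 * ρ ≤ m) : L.card ≤ r * ℓ := by
  classical
  by_cases hL : L.card = 0
  · rw [hL]; exact Nat.zero_le _
  have : NeZero (2 ^ κ) := ⟨by positivity⟩
  set w := Fintype.card Rg with hw
  set N := Fintype.card (Nd L (2 ^ κ)) with hN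
  have hρ2 : 2 ≤ ρ := by
    have h1 : 40 * (q + 3 * r + 2) * 1 ≤ 40 * (q + 3 * r + 2) * q := Nat.mul_le_mul_left _ hq1
    omega
  have hρ0 : 0 < ρ := by omega
  have hρm : ρ ≤ m := by omega
  have hm0 : 0 < m := by omega
  set A : ℕ → (Nd L (2 ^ κ) → Fin m) → Rg → Bool :=
    fun τ x => exec (alp fD gD L x : Rule T (2 ^ κ) m → Bool) (P.take τ) with hA
  set B : ℕ → (Nd L (2 ^ κ) × Fin m → Bool) → Rg → Bool :=
    fun τ y => exec (bet fD gD L y : Rule T (2 ^ κ) m → Bool) (P.take τ) with hB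
  have hcardB : Fintype.card (Rg → Bool) = 2 ^ w := by
    rw [Fintype.card_fun, Fintype.card_bool]
  have main : ∀ (r' i : ℕ), r' + i = r → ∀ lo hi : ℕ, lo ≤ hi → hi ≤ lo + 2 ^ r' →
      hi ≤ P.length → ∀ (X : Finset (Nd L (2 ^ κ) → Fin m))
      (Y : Finset (Nd L (2 ^ κ) × Fin m → Bool)) (I : Finset (Nd L (2 ^ κ)))
      (p : ℕ → ZMod (2 ^ κ)) (x0 : Nd L (2 ^ κ) → Fin m) (h : ℕ), x0 ∈ X →
      (∀ x ∈ X, ∀ v ∈ I, x v = x0 v) → Dense ρ I X →
      m ^ (N - I.card) * 2 ^ I.card ≤ X.card * 2 ^ (i * (w + 1)) →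
      2 ^ (N * m) ≤ Y.card * 2 ^ (I.card + 3 * i) →
      (∀ y ∈ Y, ∀ v ∈ I, y (v, x0 v) = !(decide (On p v))) →
      (∀ x ∈ X, ∀ y ∈ Y, Le (A lo x) (B lo y) ∧ ¬ Le (A hi x) (B hi y)) →
      IsPath fD gD L.card p → h ≤ L.card → (∀ v ∈ I, On p v → h ≤ (v.1 : ℕ)) →
      8 * q * HH (WK (pr I)) h (p h) ≤ I.card * 2 ^ h → I.card ≤ q → h ≤ r' * ℓ := by
    intro r'
    induction r' with
    | zero =>
      intro i hi0 lo hi hlo hhi hhl X Y I p x0 h hx0 hXI hd hXc hYc hYI hT hp hhL hhI hpot hIq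
      rw [pow_zero] at hhi
      have hYpos : 0 < Y.card := by
        by_contra hc
        have : Y.card = 0 := by omega
        rw [this, zero_mul] at hYc
        have : 0 < 2 ^ (N * m) := by positivity
        omega
      obtain ⟨y0, hy0⟩ := card_pos.1 hYpos
      rcases Nat.lt_or_ge lo hi with h1 | h1
      · have h2 : hi = lo + 1 := by omega
        subst h2
        have hlt : lo < P.length := by omega
        have hread : ∀ x ∈ X, ∀ y ∈ Y, ∃ qq e, P[lo] = Instr.inp qq e ∧
            alp fD gD L x e = true ∧ bet fD gD L y e = false := by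
          intro x hx y hy
          obtain ⟨h3, h4⟩ := hT x hx y hy
          exact step_read hneg hlt (fun e he => alp_outside L he x y) h3 h4
        obtain ⟨qq, e, hqe, _, hye⟩ := hread x0 hx0 y0 hy0
        have hxe : ∀ x ∈ X, alp fD gD L x e = true := by
          intro x hx
          obtain ⟨qq', e', hqe', hxe', _⟩ := hread x hx y0 hy0
          rw [hqe] at hqe'
          injection hqe' with h5 h6
          rw [h6]; exact hxe'
        have := leaf L hρ2 hp hx0 hd (hYI y0 hy0) hhI e hxe hye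
        omega
      · have h2 : hi = lo := by omega
        subst h2
        obtain ⟨h3, h4⟩ := hT x0 hx0 y0 hy0
        exact absurd h3 h4
    | succ r' ih =>
      intro i hi0 lo hi hlo hhi hhl X Y I p x0 h hx0 hXI hd hXc hYc hYI hT hp hhL hhI hpot hIq
      by_cases hlh : ℓ ≤ h
      swap
      · have : 1 * ℓ ≤ (r' + 1) * ℓ := Nat.mul_le_mul_right _ (by omega)
        omega
      set mid := min (lo + 2 ^ r') hi with hmid
      rw [pow_succ] at hhi
      have hm1 : lo ≤ mid := by omega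
      have hm2 : mid ≤ lo + 2 ^ r' := by omega
      have hm3 : mid ≤ hi := by omega
      have hm4 : hi ≤ mid + 2 ^ r' := by omega
      obtain ⟨Q, hQX, hQc, hQ⟩ := clean_classes hρ0 I X (A mid)
      have hQn : Q.Nonempty := by
        rw [← card_pos]
        have : 0 < X.card := card_pos.2 ⟨x0, hx0⟩
        omega
      rw [hcardB] at hQ
      -- the new pieces are not too small
      have hnew : ∀ (J : Finset (Nd L (2 ^ κ))) (P' : Finset (Nd L (2 ^ κ) → Fin m)),
          Disjoint J I → X.card < P'.card * ρ ^ J.card * (2 * 2 ^ w) →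
          m ^ (N - (I ∪ J).card) * 2 ^ (I ∪ J).card ≤ P'.card * 2 ^ ((i + 1) * (w + 1)) := by
        intro J P' hJI hlt
        have hc : (I ∪ J).card = I.card + J.card := card_union_of_disjoint hJI.symm
        have hcN : I.card + J.card ≤ N := by
          rw [← hc]; exact card_le_univ _
        rw [hc]
        have h1 : m ^ (N - (I.card + J.card)) * 2 ^ (I.card + J.card) * ρ ^ J.card
            ≤ P'.card * 2 ^ ((i + 1) * (w + 1)) * ρ ^ J.card := by
          calc m ^ (N - (I.card + J.card)) * 2 ^ (I.card + J.card) * ρ ^ J.card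
              = m ^ (N - (I.card + J.card)) * (2 * ρ) ^ J.card * 2 ^ I.card := by
                rw [pow_add, mul_pow]; ring
            _ ≤ m ^ (N - (I.card + J.card)) * m ^ J.card * 2 ^ I.card := by
                refine Nat.mul_le_mul_right _ (Nat.mul_le_mul_left _ (Nat.pow_le_pow_left hm _))
            _ = m ^ (N - I.card) * 2 ^ I.card := by
                rw [← pow_add]; congr 2; omega
            _ ≤ X.card * 2 ^ (i * (w + 1)) := hXc
            _ ≤ (P'.card * ρ ^ J.card * (2 * 2 ^ w)) * 2 ^ (i * (w + 1)) :=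
                Nat.mul_le_mul_right _ hlt.le
            _ = P'.card * 2 ^ ((i + 1) * (w + 1)) * ρ ^ J.card := by
                have : 2 ^ ((i + 1) * (w + 1)) = (2 * 2 ^ w) * 2 ^ (i * (w + 1)) := by
                  rw [add_mul, one_mul, pow_add, pow_succ]; ring
                rw [this]; ring
        exact Nat.le_of_mul_le_mul_right h1 (pow_pos hρ0 _)
      have hsmall : ∀ (K : Finset (Nd L (2 ^ κ))) (P' : Finset (Nd L (2 ^ κ) → Fin m))
          (x : Nd L (2 ^ κ) → Fin m), (∀ x' ∈ P', ∀ v ∈ K, x' v = x v) →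
          m ^ (N - K.card) * 2 ^ K.card ≤ P'.card * 2 ^ ((i + 1) * (w + 1)) → K.card ≤ q := by
        intro K P' x hP' hle
        have h1 : P'.card ≤ m ^ (N - K.card) := by
          rw [hN, ← card_agree_le K x]
          exact card_le_card fun x' hx' => mem_filter.2 ⟨mem_univ _, hP' x' hx'⟩
        have h2 : m ^ (N - K.card) * 2 ^ K.card ≤ m ^ (N - K.card) * 2 ^ ((i + 1) * (w + 1)) :=
          hle.trans (Nat.mul_le_mul_right _ h1)
        have h4 : 2 ^ K.card ≤ 2 ^ ((i + 1) * (w + 1)) :=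
          Nat.le_of_mul_le_mul_left h2 (pow_pos hm0 _)
        have h5 : K.card ≤ (i + 1) * (w + 1) := (Nat.pow_le_pow_iff_right (by norm_num)).1 h4
        have h6 : (i + 1) * (w + 1) ≤ r * (w + 1) := Nat.mul_le_mul_right _ (by omega)
        omega
      have hre : ∀ x : Nd L (2 ^ κ) → Fin m, ∃ (J : Finset (Nd L (2 ^ κ)))
          (P' : Finset (Nd L (2 ^ κ) → Fin m)) (p' : ℕ → ZMod (2 ^ κ)), x ∈ Q →
          (Disjoint J I ∧ P' ⊆ X ∧ x ∈ P' ∧ (∀ x' ∈ P', A mid x' = A mid x) ∧
          (∀ x' ∈ P', ∀ v ∈ I ∪ J, x' v = x v) ∧ Dense ρ (I ∪ J) P' ∧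
          m ^ (N - (I ∪ J).card) * 2 ^ (I ∪ J).card ≤ P'.card * 2 ^ ((i + 1) * (w + 1)) ∧
          (I ∪ J).card ≤ q ∧
          IsPath fD gD L.card p' ∧ (∀ v ∈ I, (On p' v ↔ On p v)) ∧
          (∀ v ∈ I ∪ J, On p' v → h - ℓ ≤ (v.1 : ℕ)) ∧
          8 * q * HH (WK (pr (I ∪ J))) (h - ℓ) (p' (h - ℓ)) ≤ (I ∪ J).card * 2 ^ (h - ℓ)) := by
        intro x
        by_cases hx : x ∈ Q
        · obtain ⟨J, P', h1, h2, h3, h4, h5, h6, h7⟩ := hQ x hx
          have h8 := hnew J P' h1 h7
          have h9 : ∀ x' ∈ P', ∀ v ∈ I ∪ J, x' v = x v := by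
            intro x' hx' v hv
            rcases mem_union.1 hv with h10 | h10
            · rw [hXI x' (h2 hx') v h10, hXI x (h2 h3) v h10]
            · exact h5 x' hx' v h10
          have h11 := hsmall (I ∪ J) P' x h9 h8
          have h12 : I.card + J.card ≤ q := by
            rw [← card_union_of_disjoint h1.symm]; exact h11
          obtain ⟨p', hp1, hp2, hp3, hp4⟩ := reroute2 hκ hℓ hq1 hp hhL hlh h1 h12 hhI hpot
          exact ⟨J, P', p', fun _ => ⟨h1, h2, h3, h4, h9, h6, h8, h11, hp1, hp2, hp3, hp4⟩⟩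
        · exact ⟨∅, ∅, p, fun h => absurd h hx⟩
      choose J P' p' hall using hre
      have hYbig : 2 * 2 ^ (N * m) ≤ Y.card * 2 ^ (q + 3 * r + 2) := by
        calc 2 * 2 ^ (N * m) ≤ 2 * (Y.card * 2 ^ (I.card + 3 * i)) := Nat.mul_le_mul_left _ hYc
          _ = Y.card * 2 ^ (I.card + 3 * i + 1) := by rw [pow_succ]; ring
          _ ≤ Y.card * 2 ^ (q + 3 * r + 2) := by
              refine Nat.mul_le_mul_left _ (Nat.pow_le_pow_right (by norm_num) (by omega))
      obtain ⟨x, hxQ, hxY⟩ := core2 (r := ρ) (d := q) (p := q + 3 * r + 2) (by omega) hρ0 hQX hQc hQn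
        hd (J := J) (fun x hx => (hall x hx).1)
        (fun x hx => (card_le_card subset_union_right).trans (hall x hx).2.2.2.2.2.2.2.1)
        (fun x v => !(decide (On (p' x) v))) hρ Y (by rw [← hN]; exact hYbig)
      obtain ⟨a1, a2, a3, a4, a5, a6, a7, a8, a9, a10, a11, a12⟩ := hall x hxQ
      set Y1 := Y.filter (fun y => ∀ v ∈ J x, y (v, x v) = !(decide (On (p' x) v))) with hY1
      have hcu : (I ∪ J x).card = I.card + (J x).card := card_union_of_disjoint a1.symm
      have hY1c : 2 ^ (N * m) ≤ Y1.card * 2 ^ ((I ∪ J x).card + 3 * i + 2) := by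
        calc 2 ^ (N * m) ≤ Y.card * 2 ^ (I.card + 3 * i) := hYc
          _ ≤ (4 * 2 ^ (J x).card * Y1.card) * 2 ^ (I.card + 3 * i) := Nat.mul_le_mul_right _ hxY
          _ = Y1.card * 2 ^ ((I ∪ J x).card + 3 * i + 2) := by
              have : (I ∪ J x).card + 3 * i + 2 = 2 + (J x).card + (I.card + 3 * i) := by omega
              rw [this, pow_add, pow_add]; ring
      have hY1I : ∀ y ∈ Y1, ∀ v ∈ I ∪ J x, y (v, x v) = !(decide (On (p' x) v)) := by
        intro y hy v hv
        rw [hY1, mem_filter] at hy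
        rcases mem_union.1 hv with h1 | h1
        · rw [hXI x (hQX hxQ) v h1, hYI y hy.1 v h1]
          congr 1
          exact decide_eq_decide.2 (a10 v h1).symm
        · exact hy.2 v h1
      have hgo : ∀ (Y2 : Finset (Nd L (2 ^ κ) × Fin m → Bool)), Y2 ⊆ Y1 → Y1.card ≤ 2 * Y2.card →
          2 ^ (N * m) ≤ Y2.card * 2 ^ ((I ∪ J x).card + 3 * (i + 1)) := by
        intro Y2 _ hc
        calc 2 ^ (N * m) ≤ Y1.card * 2 ^ ((I ∪ J x).card + 3 * i + 2) := hY1c
          _ ≤ (2 * Y2.card) * 2 ^ ((I ∪ J x).card + 3 * i + 2) := Nat.mul_le_mul_right _ hc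
          _ = Y2.card * 2 ^ ((I ∪ J x).card + 3 * (i + 1)) := by
              have : (I ∪ J x).card + 3 * (i + 1) = ((I ∪ J x).card + 3 * i + 2) + 1 := by ring
              rw [this, pow_succ]; ring
      have hfin : h - ℓ ≤ r' * ℓ := by
        rcases half_or Y1 (fun y => Le (A mid x) (B mid y)) (fun y => ¬ Le (A mid x) (B mid y))
          (fun y _ => em _) with h1 | h1
        · -- the interval [mid, hi]
          refine ih (i + 1) (by omega) mid hi hm3 hm4 hhl (P' x)
            (Y1.filter (fun y => Le (A mid x) (B mid y))) (I ∪ J x) (p' x) x (h - ℓ) a3 a5 a6 a7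
            (hgo _ (filter_subset _ _) h1) (fun y hy => hY1I y (mem_filter.1 hy).1) ?_ a9
            (by omega) a11 a12 a8
          intro x' hx' y hy
          rw [mem_filter] at hy
          refine ⟨?_, (hT x' (a2 hx') y (mem_filter.1 hy.1).1).2⟩
          rw [a4 x' hx']
          exact hy.2
        · refine ih (i + 1) (by omega) lo mid hm1 hm2 (by omega) (P' x)
            (Y1.filter (fun y => ¬ Le (A mid x) (B mid y))) (I ∪ J x) (p' x) x (h - ℓ) a3 a5 a6 a7
            (hgo _ (filter_subset _ _) h1) (fun y hy => hY1I y (mem_filter.1 hy).1) ?_ a9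
            (by omega) a11 a12 a8
          intro x' hx' y hy
          rw [mem_filter] at hy
          refine ⟨(hT x' (a2 hx') y (mem_filter.1 hy.1).1).1, ?_⟩
          rw [a4 x' hx']
          exact hy.2
      rw [add_mul, one_mul]
      omega
  -- the start
  have hpath : IsPath fD gD L.card (fun _ => (0 : ZMod (2 ^ κ))) :=
    ⟨rfl, fun t _ => Or.inl (by simp)⟩
  refine main r 0 (by omega) 0 P.length (Nat.zero_le _) (by omega) le_rfl univ univ ∅
    (fun _ => 0) (fun _ => ⟨0, hm0⟩) L.card (mem_univ _) (by simp) ?_ ?_ ?_ (by simp) ?_ hpath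
    le_rfl (by simp) ?_ (by simp)
  · intro S _ a
    rw [card_agree_le, card_univ, Fintype.card_fun, Fintype.card_fin]
    have h1 : S.card ≤ Fintype.card (Nd L (2 ^ κ)) := card_le_univ S
    calc m ^ (Fintype.card (Nd L (2 ^ κ)) - S.card) * ρ ^ S.card
        ≤ m ^ (Fintype.card (Nd L (2 ^ κ)) - S.card) * m ^ S.card :=
          Nat.mul_le_mul_left _ (Nat.pow_le_pow_left hρm _)
      _ = m ^ Fintype.card (Nd L (2 ^ κ)) := by rw [← pow_add]; congr 1; omega
  · rw [card_univ, Fintype.card_fun, Fintype.card_fin, ← hN]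
    simp
  · rw [card_univ, Fintype.card_fun, Fintype.card_prod, Fintype.card_fin, Fintype.card_bool, ← hN]
    simp
  · intro x _ y _
    refine ⟨?_, ?_⟩
    · rw [hA, hB]
      simp only [List.take_zero]
      exact fun q hq => hq
    · intro hle
      have h1 := hle o
      rw [hA, hB] at h1
      simp only [List.take_length] at h1
      rw [hP, hP, PS_alp L hf, PS_bet L hf hL] at h1
      exact absurd (h1 rfl) (by simp)
  · have h1 : HH (WK (pr (∅ : Finset (Nd L (2 ^ κ))))) L.card ((fun _ => (0 : ZMod (2 ^ κ))) L.card) ≤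
        HH (fun _ _ => 0) L.card 0 := HH_mono (fun t _ j => by unfold WK pr; simp) _
    rw [HH_zero] at h1
    have h2 : HH (WK (pr (∅ : Finset (Nd L (2 ^ κ))))) L.card 0 = 0 := by
      simpa using h1
    simp only at *
    rw [h2]
    simp

end Pool.Agent.HM94.MSC
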