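import Pool.Agent.HM94.MSC.Family
import Pool.Agent.HM94.MSC.Width
import Pool.Agent.HM94.MSC.CircUp

/-!
# Wide systems: small depth, many registers
-/

set_option autoImplicit false

namespace Pool.Agent.HM94.MSC

open Finset

instance (b : ℕ) : NeZero (2 ^ b) := ⟨by positivity⟩

/-- The number of input bits of the wide system with `T` layers, `2 ^ b` columns and
`2 ^ (2 b + 1)` elements in every node. -/
def wideN (b T : ℕ) : ℕ :=
  T * (2 ^ b * (2 ^ (2 * b + 1) * (2 ^ (2 * b + 1) * 2 ^ (2 * b + 1))))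

theorem wideN_eq (b T : ℕ) : wideN b T = T * 2 ^ (7 * b + 3) := by
  unfold wideN
  rw [← pow_add, ← pow_add, ← pow_add]
  congr 2
  ring

/-- The wide system (`false` if `n` bits do not suffice). -/
noncomputable def wide (b T n : ℕ) : (Fin n → Bool) → Bool :=
  if h : wideN b T ≤ n then
    psFun (k := 2 ^ b) (m := 2 ^ (2 * b + 1)) (T := T) (fun i => 2 * i) (fun i => 2 * i + 1) h
  else fun _ => false

theorem wide_upper {b T n : ℕ} (h : wideN b T ≤ n) (hT : 1 ≤ T) :
    ∃ (s : ℕ) (Ci : Circ (Fin n) s) (o : Fin s), s ≤ 6 * wideN b T ∧ Ci.Mono ∧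
      (∀ x, Ci.val x o = wide b T n x) ∧
      Ci.depth o ≤ T * (4 * b + 4) + (4 * b + 2) := by
  have hm0 : 0 < 2 ^ (2 * b + 1) := by positivity
  obtain ⟨Ci, hC, o, ho, hd⟩ := circ_up (T := T) (k := 2 ^ b) (m := 2 ^ (2 * b + 1))
    (j := 4 * b + 2) (fun i => 2 * i) (fun i => 2 * i + 1) (by
      rw [← pow_add]; exact Nat.pow_le_pow_right (by norm_num) (by omega)) hm0
  refine ⟨_, Ci.map (fun e => .inl (bit h e)), o, ?_, map_mono hC _, ?_, ?_⟩
  · -- the size
    unfold wideN
    set m := 2 ^ (2 * b + 1) with hm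
    have hmn : m ≤ T * (2 ^ b * (m * (m * m))) := by
      calc m = 1 * (1 * (m * (1 * 1))) := by ring
        _ ≤ T * (2 ^ b * (m * (m * m))) := by
            refine Nat.mul_le_mul hT (Nat.mul_le_mul Nat.one_le_two_pow
              (Nat.mul_le_mul_left _ (Nat.mul_le_mul hm0 hm0)))
    have h2 : T * ((3 * (m * m) + (m * m - 1)) * (2 ^ b * m)) ≤
        4 * (T * (2 ^ b * (m * (m * m)))) := by
      calc T * ((3 * (m * m) + (m * m - 1)) * (2 ^ b * m))
          ≤ T * ((4 * (m * m)) * (2 ^ b * m)) := by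
            refine Nat.mul_le_mul_left _ (Nat.mul_le_mul_right _ (by omega))
        _ = 4 * (T * (2 ^ b * (m * (m * m)))) := by ring
    omega
  · intro x
    rw [Circ.map_val, ho]
    unfold wide
    rw [dif_pos h]
    rfl
  · rw [Circ.map_depth]
    refine hd.trans (le_of_eq ?_)
    ring

/-- The lower bound. -/
theorem wide_lower {b T n : ℕ} (h : wideN b T ≤ n) {r w : ℕ} (hr : 1 ≤ r) (hrT : r * b < T)
    (P : List (Instr (Fin n) (Fin w))) (hneg : MonoProg P) (hlen : P.length ≤ 2 ^ r)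
    (o : Fin w) (ho : ∀ x, exec x P o = wide b T n x) : 2 ^ b < 32 * r * w := by
  by_contra hcon
  rw [not_lt] at hcon
  have hw : 1 ≤ w := by have := o.2; omega
  set q := r * (w + 1) with hq
  have hq1 : 1 ≤ q := Nat.mul_pos hr (by omega)
  have hrq : r ≤ q := Nat.le_mul_of_pos_right r (by omega)
  have h16 : 16 * q ≤ 2 ^ b := by
    calc 16 * q = 16 * r * (w + 1) := by rw [hq]; ring
      _ ≤ 16 * r * (2 * w) := Nat.mul_le_mul_left _ (by omega)
      _ = 32 * r * w := by ring
      _ ≤ 2 ^ b := hcon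
  have hrho : 40 * (q + 3 * r + 2) * q ≤ 2 ^ (2 * b) := by
    calc 40 * (q + 3 * r + 2) * q ≤ 40 * (6 * q) * q :=
          Nat.mul_le_mul_right _ (Nat.mul_le_mul_left _ (by omega))
      _ ≤ (16 * q) * (16 * q) := by nlinarith
      _ ≤ 2 ^ b * 2 ^ b := Nat.mul_le_mul h16 h16
      _ = 2 ^ (2 * b) := by rw [← pow_add]; congr 1; ring
  have hlow := width_lower (T := T) (κ := b) (m := 2 ^ (2 * b + 1)) (ρ := 2 ^ (2 * b)) (q := q)
    (ℓ := b) (r := r) (Rg := Fin w) univ (fun t ht => absurd (mem_univ t) ht)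
    (P.map (Instr.map (back h) id))
    (monoProg_neg (monoProg_map hneg _ _) _) o ?_ ?_ ?_ hq1 (by omega) (by omega) hrho
    (by rw [pow_succ]; omega)
  · rw [card_univ, Fintype.card_fin] at hlow
    omega
  · intro e
    have h1 := exec_map (back h) (ψ := (id : Fin w → Fin w)) Function.injective_id e P o
    rw [id] at h1
    rw [h1, ho]
    unfold wide
    rw [dif_pos h]
    exact psFun_back _ _ h e
  · rw [List.length_map]; exact hlen
  · rw [Fintype.card_fin]

end Pool.Agent.HM94.MSC
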